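import Pool.Agent.Lib.TE.Cmp
import Pool.Agent.Lib.TC.StepD
import Pool.Agent.Lib.TC.AQ
import Pool.Agent.Lib.TC.IQ
import Pool.Agent.Lib.TC.FinQ
import Pool.Agent.Lib.CQ.QQ

/-!
# Module TE.Bases: the basic uniformizable valuations, and the final step over essentially finite
type domains
-/

open IsLocalRing

namespace Pool.Agent.Lib.TE

open TC
open Pool.Agent.Lib.MP_3029eb_ag Pool.Agent.Lib.MP_3029eb_ag.Abh

theorem top_one {K : Type} [Field K] (z : K) :
    (⊤ : ValuationSubring K).valuation z = 1 ↔ z ≠ 0 := by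
  rw [C1_val_one_iff]
  exact ⟨fun h => h.2.2, fun h => ⟨ValuationSubring.mem_top z, ValuationSubring.mem_top _, h⟩⟩

theorem top_lt {K : Type} [Field K] (z : K) :
    (⊤ : ValuationSubring K).valuation z < 1 ↔ z = 0 := by
  constructor
  · intro h
    by_contra h0
    exact h.ne ((top_one z).2 h0)
  · rintro rfl
    rw [map_zero]
    exact zero_lt_one

section

variable {R K : Type} [CommRing R] [Field K] [Algebra R K]

theorem base_disc (hR : GoodBase R) (V : ValuationSubring K) (π : K) (h0 : π ≠ 0)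
    (h1 : V.valuation π < 1)
    (hgen : ∀ z : K, z ≠ 0 → ∃ n : ℤ, V.valuation z = V.valuation (π ^ n)) :
    Unif (algebraMap R K) V 1 := by
  have h2 := unif_D hR (algebraMap R K) (V := V) (V1 := ⊤) (π := π)
    ⟨le_top, (top_one π).2 h0, h1, fun z hz => hgen z ((top_one z).1 hz)⟩ (Unif_top _)
  simpa using h2

private theorem bs_alg {A0 : Subalgebra R K} (halg : Algebra.IsAlgebraic A0 K) (z : K)
    (_ : z ∈ (⊤ : ValuationSubring K)) : ∃ f : Polynomial A0,
      (∃ n, (⊤ : ValuationSubring K).valuation ((f.coeff n : A0) : K) = 1) ∧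
      (⊤ : ValuationSubring K).valuation (Polynomial.aeval z f) < 1 := by
  obtain ⟨f, hf0, hf⟩ := halg.isAlgebraic z
  refine ⟨f, ?_, (top_lt _).2 hf⟩
  refine ⟨f.natDegree, (top_one _).2 fun h0 => hf0 ?_⟩
  have h1 : f.leadingCoeff = 0 := Subtype.ext h0
  exact Polynomial.leadingCoeff_eq_zero.1 h1

theorem base_abh (hR : GoodBase R) (V : ValuationSubring K) (A0 : Subalgebra R K) (hfg : A0.FG)
    (hAV : ∀ a : A0, (a : K) ∈ V) (P : Ideal A0)
    (hP : ∀ a : A0, a ∈ P ↔ V.valuation (a : K) < 1) (halg : Algebra.IsAlgebraic A0 K)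
    {r s : ℕ} (x : Fin r → K) (hx0 : ∀ i, x i ≠ 0)
    (hx : ∀ m : Fin r → ℤ, V.valuation (∏ i, x i ^ m i) = 1 → m = 0)
    (y : Fin s → K) (hyV : ∀ j, y j ∈ V)
    (hy : ∀ p : MvPolynomial (Fin s) A0, V.valuation (MvPolynomial.aeval y p) < 1 →
      ∀ m, V.valuation ((MvPolynomial.coeff m p : A0) : K) < 1)
    (hdim : P.height ≤ ((r + s : ℕ) : ℕ∞)) : Unif (algebraMap R K) V r := by
  have hht : (P.map (Ideal.Quotient.mk (⊥ : Ideal A0))).height = P.height := by
    have h1 := RingEquiv.height_map (RingEquiv.quotientBot A0)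
      (P.map (Ideal.Quotient.mk (⊥ : Ideal A0)))
    rw [← h1]
    congr 1
    show Ideal.map (RingEquiv.quotientBot A0 : A0 ⧸ (⊥ : Ideal A0) →+* A0)
      (Ideal.map (Ideal.Quotient.mk (⊥ : Ideal A0)) P) = P
    rw [Ideal.map_map]
    have h2 : (RingEquiv.quotientBot A0 : A0 ⧸ (⊥ : Ideal A0) →+* A0).comp
        (Ideal.Quotient.mk (⊥ : Ideal A0)) = RingHom.id A0 := by
      ext a
      rfl
    rw [h2, Ideal.map_id]
  have h3 := unif_AQ hR (V := V) (V1 := ⊤) le_top A0 hfg hAV ⊥ P (fun a => by
    rw [top_lt, Ideal.mem_bot]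
    exact ⟨fun h => by rw [h]; rfl, fun h => Subtype.ext h⟩) hP (bs_alg halg) x
    (fun i => (top_one _).2 (hx0 i)) hx y hyV hy (by rw [hht]; exact hdim) (Unif_top _)
  simpa using h3

theorem impl_top (V : ValuationSubring K) (A : Subalgebra R K) (P : Ideal A) [P.IsPrime] :
    TC.implicitIdeal ⊤ V A P = ⨅ d : {d : A // d ≠ 0}, Ideal.span
    ((fun a : A => algebraMap (Localization.AtPrime P)
      (AdicCompletion (maximalIdeal (Localization.AtPrime P)) (Localization.AtPrime P))
      (algebraMap A (Localization.AtPrime P) a)) ''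
      {a : A | V.valuation (a : K) ≤ V.valuation ((d : A) : K)}) := by
  unfold TC.implicitIdeal
  refine le_antisymm ?_ ?_
  · refine le_iInf fun d => ?_
    exact iInf_le_of_le ⟨d.1, (top_one _).2 fun h => d.2 (Subtype.ext h)⟩ le_rfl
  · refine le_iInf fun d => ?_
    exact iInf_le_of_le ⟨d.1, fun h => (top_one _).1 d.2 (by rw [h]; rfl)⟩ le_rfl

theorem base_impl (hR : GoodBase R) (V : ValuationSubring K)
    (harch : ∀ a b : K, a ≠ 0 → V.valuation b < 1 → ∃ n : ℕ, V.valuation (b ^ n) ≤ V.valuation a)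
    (A0 : Subalgebra R K) (hfg : A0.FG)
    (hAV : ∀ a : A0, (a : K) ∈ V) (P : Ideal A0) [P.IsPrime]
    (hP : ∀ a : A0, a ∈ P ↔ V.valuation (a : K) < 1) (halg : Algebra.IsAlgebraic A0 K)
    {r s : ℕ} (hr : 0 < r) (x : Fin r → K) (hx0 : ∀ i, x i ≠ 0)
    (hx : ∀ m : Fin r → ℤ, V.valuation (∏ i, x i ^ m i) = 1 → m = 0)
    (y : Fin s → K) (hyV : ∀ j, y j ∈ V)
    (hy : ∀ p : MvPolynomial (Fin s) A0, V.valuation (MvPolynomial.aeval y p) < 1 →
      ∀ m, V.valuation ((MvPolynomial.coeff m p : A0) : K) < 1)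
    (hdim : ringKrullDim (AdicCompletion (maximalIdeal (Localization.AtPrime P))
      (Localization.AtPrime P) ⧸ (⨅ d : {d : A0 // d ≠ 0}, Ideal.span
    ((fun a : A0 => algebraMap (Localization.AtPrime P)
      (AdicCompletion (maximalIdeal (Localization.AtPrime P)) (Localization.AtPrime P))
      (algebraMap A0 (Localization.AtPrime P) a)) ''
      {a : A0 | V.valuation (a : K) ≤ V.valuation ((d : A0) : K)}))) ≤
      ((r + s : ℕ) : WithBot ℕ∞)) : Unif (algebraMap R K) V r := by
  rw [← impl_top] at hdim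
  have h3 := unif_IQ hR (V := V) (V1 := ⊤) le_top (fun a b ha _ hb => harch a b ((top_one a).1 ha) hb)
    A0 hfg hAV P hP (bs_alg halg) hr x (fun i => (top_one _).2 (hx0 i)) hx y hyV hy hdim
    (Unif_top _)
  simpa using h3

/-- adding a residually transcendental element -/
theorem resIndep_cons {V : ValuationSubring K} {A0 : Subalgebra R K} {s : ℕ} (y : Fin s → K)
    (hyV : ∀ j, y j ∈ V) (hAV : ∀ a : A0, (a : K) ∈ V)
    (hy : ∀ p : MvPolynomial (Fin s) A0, V.valuation (MvPolynomial.aeval y p) < 1 →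
      ∀ m, V.valuation ((MvPolynomial.coeff m p : A0) : K) < 1) (z : K)
    (hz : ¬ ∃ f : Polynomial (Algebra.adjoin A0 (Set.range y)),
      (∃ n, V.valuation ((f.coeff n : Algebra.adjoin A0 (Set.range y)) : K) = 1) ∧
      V.valuation (Polynomial.aeval z f) < 1) :
    ∀ p : MvPolynomial (Fin (s + 1)) A0,
      V.valuation (MvPolynomial.aeval (Fin.cons z y : Fin (s + 1) → K) p) < 1 →
      ∀ m, V.valuation ((MvPolynomial.coeff m p : A0) : K) < 1 := by
  intro q hq m
  by_contra hm
  -- the evaluation at `y` with values in the algebra generated by `y`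
  let ev : MvPolynomial (Fin s) A0 →+* Algebra.adjoin A0 (Set.range y) :=
    ((MvPolynomial.aeval y : MvPolynomial (Fin s) A0 →ₐ[A0] K) :
      MvPolynomial (Fin s) A0 →+* K).codRestrict _ fun p => by
        show MvPolynomial.aeval y p ∈ Algebra.adjoin A0 (Set.range y)
        rw [Algebra.adjoin_range_eq_range_aeval]
        exact ⟨p, rfl⟩
  have hev : ∀ p, ((ev p : Algebra.adjoin A0 (Set.range y)) : K) = MvPolynomial.aeval y p :=
    fun p => rfl
  have hV : ∀ p : MvPolynomial (Fin s) A0, MvPolynomial.aeval y p ∈ V := by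
    intro p
    induction p using MvPolynomial.induction_on with
    | C a => rw [MvPolynomial.aeval_C]; exact hAV a
    | add p q hp hq => rw [map_add]; exact add_mem hp hq
    | mul_X p i hp => rw [map_mul, MvPolynomial.aeval_X]; exact mul_mem hp (hyV i)
  refine hz ⟨(MvPolynomial.finSuccEquiv A0 s q).map ev, ⟨m 0, ?_⟩, ?_⟩
  · rw [Polynomial.coeff_map, hev]
    refine le_antisymm ((V.valuation_le_one_iff _).2 (hV _)) ?_
    rw [← not_lt]
    intro h1
    have h2 := hy _ h1 m.tail
    rw [MvPolynomial.finSuccEquiv_coeff_coeff, Finsupp.cons_tail] at h2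
    exact hm h2
  · have h1 : Polynomial.aeval z ((MvPolynomial.finSuccEquiv A0 s q).map ev) =
        MvPolynomial.aeval (Fin.cons z y : Fin (s + 1) → K) q := by
      rw [Polynomial.aeval_def, Polynomial.eval₂_map]
      have h2 : (algebraMap (Algebra.adjoin A0 (Set.range y)) K).comp ev =
          ((MvPolynomial.aeval y : MvPolynomial (Fin s) A0 →ₐ[A0] K) :
            MvPolynomial (Fin s) A0 →+* K) := rfl
      rw [h2]
      have h3 : (Polynomial.eval₂RingHom ((MvPolynomial.aeval y : MvPolynomial (Fin s) A0 →ₐ[A0] K) :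
            MvPolynomial (Fin s) A0 →+* K) z).comp
            (MvPolynomial.finSuccEquiv A0 s).toRingEquiv.toRingHom =
          ((MvPolynomial.aeval (Fin.cons z y : Fin (s + 1) → K) :
            MvPolynomial (Fin (s + 1)) A0 →ₐ[A0] K) : MvPolynomial (Fin (s + 1)) A0 →+* K) := by
        refine MvPolynomial.ringHom_ext (fun a => ?_) (fun i => ?_)
        · simp [MvPolynomial.finSuccEquiv_apply]
        · refine Fin.cases ?_ (fun i => ?_) i
          · simp [MvPolynomial.finSuccEquiv_X_zero]
          · simp [MvPolynomial.finSuccEquiv_X_succ]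
      exact RingHom.congr_fun h3 q
    rw [h1]
    exact hq

theorem base_def1 (p : ℕ) [Fact p.Prime] (hR : GoodBase R) (V : ValuationSubring K)
    (harch : ∀ a b : K, a ≠ 0 → V.valuation b < 1 → ∃ n : ℕ, V.valuation (b ^ n) ≤ V.valuation a)
    (A0 : Subalgebra R K) (hfg : A0.FG)
    (hAV : ∀ a : A0, (a : K) ∈ V) (P : Ideal A0) [P.IsPrime]
    (hP : ∀ a : A0, a ∈ P ↔ V.valuation (a : K) < 1) (halg : Algebra.IsAlgebraic A0 K)
    {r s : ℕ} (hr : 0 < r) (x : Fin r → K) (hx0 : ∀ i, x i ≠ 0)
    (hx : ∀ m : Fin r → ℤ, V.valuation (∏ i, x i ^ m i) = 1 → m = 0)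
    (hrank : ∀ z : Fin (r + 1) → K, (∀ i, z i ≠ 0) →
      ∃ m : Fin (r + 1) → ℤ, m ≠ 0 ∧ V.valuation (∏ i, z i ^ m i) = 1)
    (y : Fin s → K) (hyV : ∀ j, y j ∈ V)
    (hy : ∀ p : MvPolynomial (Fin s) A0, V.valuation (MvPolynomial.aeval y p) < 1 →
      ∀ m, V.valuation ((MvPolynomial.coeff m p : A0) : K) < 1)
    (hp : (p : K) = 0) {k : Type} [Field k] [PerfectField k] [Algebra k P.ResidueField]
    (hk : Algebra.EssFiniteType k P.ResidueField)
    (hdim : ringKrullDim (AdicCompletion (maximalIdeal (Localization.AtPrime P))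
      (Localization.AtPrime P) ⧸ (⨅ d : {d : A0 // d ≠ 0}, Ideal.span
    ((fun a : A0 => algebraMap (Localization.AtPrime P)
      (AdicCompletion (maximalIdeal (Localization.AtPrime P)) (Localization.AtPrime P))
      (algebraMap A0 (Localization.AtPrime P) a)) ''
      {a : A0 | V.valuation (a : K) ≤ V.valuation ((d : A0) : K)}))) ≤
      ((r + s + 1 : ℕ) : WithBot ℕ∞)) : Unif (algebraMap R K) V r := by
  by_cases hyalg : ∀ z : K, z ∈ V → ∃ f : Polynomial (Algebra.adjoin A0 (Set.range y)),
      (∃ n, V.valuation ((f.coeff n : Algebra.adjoin A0 (Set.range y)) : K) = 1) ∧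
      V.valuation (Polynomial.aeval z f) < 1
  · rw [← impl_top] at hdim
    have hσ : EFT (algebraMap k P.ResidueField) := by
      have h1 : (algebraMap k P.ResidueField).toAlgebra = (inferInstance : Algebra k P.ResidueField) :=
        Algebra.algebra_ext _ _ fun _ => rfl
      show @Algebra.EssFiniteType k P.ResidueField _ _ (algebraMap k P.ResidueField).toAlgebra
      rw [h1]
      exact hk
    have h3 := CQ.unif_QQ p hR (V := V) (V1 := ⊤) le_top
      (fun a b ha _ hb => harch a b ((top_one a).1 ha) hb)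
      A0 hfg hAV P hP (bs_alg halg) hr x (fun i => (top_one _).2 (hx0 i)) hx
      (fun z hz => hrank z fun i => (top_one _).1 (hz i)) y hyV hy hyalg
      ((top_lt _).2 hp) (algebraMap k P.ResidueField) hσ hdim (Unif_top _)
    simpa using h3
  · push Not at hyalg
    obtain ⟨z, hzV, hz⟩ := hyalg
    refine base_impl hR V harch A0 hfg hAV P hP halg hr x hx0 hx (Fin.cons z y : Fin (s + 1) → K)
      (fun j => ?_) (resIndep_cons y hyV hAV hy z ?_) ?_
    · refine Fin.cases ?_ (fun i => ?_) j
      · exact hzV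
      · exact hyV i
    · rintro ⟨f, ⟨n, hn⟩, hf⟩
      exact absurd hf (not_lt.2 (hz f ⟨n, hn⟩))
    · rw [← add_assoc]
      exact hdim

end

/-- the final step for domains essentially of finite type over the base -/
theorem finE {R0 R K : Type} [CommRing R0] [IsNoetherianRing R0] [CommRing R] [IsDomain R]
    [Algebra R0 R] [Algebra.EssFiniteType R0 R] [Field K] [Algebra R K] [IsFractionRing R K]
    [Algebra R0 K] [IsScalarTower R0 R K]
    (V : ValuationSubring K) (hRV : ∀ a : R, algebraMap R K a ∈ V) (P : Ideal R) [P.IsPrime]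
    (hP : ∀ a : R, a ∈ P ↔ V.valuation (algebraMap R K a) < 1) {r : ℕ}
    (hU : Unif (algebraMap R0 K) V r) {s : ℕ} (y : Fin s → K) (hyV : ∀ j, y j ∈ V)
    (hy : ∀ p : MvPolynomial (Fin s) R, V.valuation (MvPolynomial.aeval y p) < 1 →
      ∀ m, MvPolynomial.coeff m p ∈ P) :
    EMB3d V (algebraMap R K).range r
      fun d => d + ((s : ℕ) : WithBot ℕ∞) ≤ ((P.height : ℕ∞) : WithBot ℕ∞) := by
  classical
  have hRn : IsNoetherianRing R := Algebra.EssFiniteType.isNoetherianRing R0 R
  have hinj : Function.Injective (algebraMap R K) := IsFractionRing.injective R K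
  have hsurj : Function.Surjective (algebraMap R K).rangeRestrict :=
    (algebraMap R K).rangeRestrict_surjective
  have hle : (algebraMap R K).range ≤ V.toSubring := by
    rintro _ ⟨r, rfl⟩; exact hRV r
  have hf0 : EFT (algebraMap R0 R) := by
    have h1 : (algebraMap R0 R).toAlgebra = (inferInstance : Algebra R0 R) :=
      Algebra.algebra_ext _ _ fun _ => rfl
    show @Algebra.EssFiniteType R0 R _ _ (algebraMap R0 R).toAlgebra
    rw [h1]
    infer_instance
  have hf : EFT ((algebraMap R K).rangeRestrict.comp (algebraMap R0 R)) :=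
    EFT_comp_surjective (algebraMap R0 R) (algebraMap R K).rangeRestrict hf0 hsurj
  have nA : IsNoetherianRing (algebraMap R K).range :=
    isNoetherianRing_of_surjective _ _ _ hsurj
  have hfrac : ∀ z : K, ∃ a ∈ (algebraMap R K).range, ∃ b ∈ (algebraMap R K).range,
      b ≠ 0 ∧ z * b = a := by
    intro z
    obtain ⟨⟨a, b⟩, hab⟩ := IsLocalization.surj (nonZeroDivisors R) z
    refine ⟨_, ⟨a, rfl⟩, _, ⟨b, rfl⟩, ?_, hab⟩
    intro h0
    exact nonZeroDivisors.ne_zero b.2 (hinj (by rw [h0, map_zero]))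
  -- the local ring at the centre
  set A1 : Subring K := locV V (algebraMap R K).range with hA1
  have hA1V : A1 ≤ V.toSubring := locV_le V hle
  have hA1l : locV V A1 = A1 := locV_locV V _
  have hRA1 : (algebraMap R K).range ≤ A1 := le_locV V _
  have nA1 : IsNoetherianRing A1 := isNoetherianRing_locV V
  have hdimA : ringKrullDim A1 = ((P.height : ℕ∞) : WithBot ℕ∞) := by
    let i1 : R →+* A1 := (algebraMap R K).codRestrict _ fun a => hRA1 ⟨a, rfl⟩
    let _ : Algebra R A1 := i1.toAlgebra
    have hmap : ∀ a : R, ((algebraMap R A1 a : A1) : K) = algebraMap R K a := fun a => rfl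
    have hc : ∀ b : R, b ∈ P.primeCompl ↔ V.valuation (algebraMap R K b) = 1 := by
      intro b
      rw [Ideal.mem_primeCompl_iff, hP, not_lt]
      exact ⟨fun h1 => le_antisymm ((V.valuation_le_one_iff _).2 (hRV b)) h1, fun h1 => h1.ge⟩
    have : IsLocalization.AtPrime A1 P :=
      { map_units := by
          rintro ⟨b, hb⟩
          have hb' := (hc b).1 hb
          have hb0 : algebraMap R K b ≠ 0 := ((C1_val_one_iff V _).1 hb').2.2
          have hmem : (algebraMap R K b)⁻¹ ∈ A1 :=
            ⟨1, one_mem _, algebraMap R K b, ⟨b, rfl⟩, hb', inv_mul_cancel₀ hb0⟩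
          exact IsUnit.of_mul_eq_one ⟨(algebraMap R K b)⁻¹, hmem⟩
            (Subtype.ext (mul_inv_cancel₀ hb0))
        surj := by
          rintro ⟨z, _, ⟨a, rfl⟩, _, ⟨b, rfl⟩, hb1, hab⟩
          exact ⟨(a, ⟨b, (hc b).2 hb1⟩), Subtype.ext hab⟩
        exists_of_eq := by
          intro x y hxy
          refine ⟨1, ?_⟩
          have : x = y := hinj (by rw [← hmap x, ← hmap y, hxy])
          rw [this] }
    exact IsLocalization.AtPrime.ringKrullDim_eq_height P A1
  have hres : ResIndep V A1 y := by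
    refine resIndep_locV V _ hle ?_
    intro p hp m
    obtain ⟨p', rfl⟩ := MvPolynomial.map_surjective _ hsurj p
    have h1 : MvPolynomial.eval₂ (algebraMap R K).range.subtype y
        (MvPolynomial.map (algebraMap R K).rangeRestrict p') = MvPolynomial.aeval y p' := by
      rw [MvPolynomial.eval₂_map, MvPolynomial.aeval_def]
      rfl
    rw [h1] at hp
    rw [MvPolynomial.coeff_map]
    exact (hP _).1 (hy p' hp m)
  have hdrop := krullDim_resIndep V A1 hA1V hA1l y
    (fun i => ⟨hyV i, by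
      obtain ⟨a, ha, b, hb, hb0, h⟩ := hfrac (y i)
      exact ⟨a, hRA1 ha, b, hRA1 hb, hb0, h⟩⟩) hres
  have hset : (Set.range y) = ((Finset.univ.image y : Finset K) : Set K) := by
    rw [Finset.coe_image, Finset.coe_univ, Set.image_univ]
  rw [hA1, locV_closure_locV (le_refl V), ← hA1, hset, hdimA] at hdrop
  have hg : ∀ t ∈ Finset.univ.image y, t ∈ V ∧ ∃ a ∈ (algebraMap R K).range,
      ∃ b ∈ (algebraMap R K).range, b ≠ 0 ∧ t * b = a := by
    intro t ht
    obtain ⟨i, -, rfl⟩ := Finset.mem_image.1 ht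
    exact ⟨hyV i, hfrac _⟩
  have hcl : Subring.closure (((algebraMap R K).range : Set K) ∪
      ((Finset.univ.image y : Finset K) : Set K)) ≤ V.toSubring :=
    closure_le_val V _ hle _ fun t ht => (hg t ht).1
  have hAA' : (algebraMap R K).range ≤ locV V (Subring.closure (((algebraMap R K).range : Set K) ∪
      ((Finset.univ.image y : Finset K) : Set K))) :=
    fun a ha => le_locV _ _ (Subring.subset_closure (Or.inl ha))
  have n1 : IsNoetherianRing (Subring.closure (((algebraMap R K).range : Set K) ∪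
      ((Finset.univ.image y : Finset K) : Set K))) := isNoetherianRing_closure _
  have n2 : IsNoetherianRing (locV V (Subring.closure (((algebraMap R K).range : Set K) ∪
      ((Finset.univ.image y : Finset K) : Set K)))) := isNoetherianRing_locV _
  have hE : EMB3 V (locV V (Subring.closure (((algebraMap R K).range : Set K) ∪
      ((Finset.univ.image y : Finset K) : Set K)))) r := by
    refine hU _ (locV_le _ hcl) (locV_locV _ _)
      ((Subring.inclusion hAA').comp ((algebraMap R K).rangeRestrict.comp (algebraMap R0 R)))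
      (fun c => (IsScalarTower.algebraMap_apply R0 R K c).symm)
      (EFT_locV V _ _ hf _ (Subring.inclusion hAA') (fun a => rfl)) fun z => ?_
    obtain ⟨a, ha, b, hb, hb0, h⟩ := hfrac z
    exact ⟨a, hAA' ha, b, hAA' hb, hb0, h⟩
  refine EMB3d_trans V _ (Finset.univ.image y) hg (hE.dim fun g hg' => ?_) hle
  have h1 := krullDim_adjoin V _ (locV_le _ hcl) (locV_locV _ _) g hg'
  exact (add_le_add h1 le_rfl).trans hdrop

end Pool.Agent.Lib.TE
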