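import Pool.Agent.Lib.TE.UnE
import Pool.Agent.Lib.TC.Comp
import Pool.Agent.Lib.TC.Trans
import Pool.Agent.Lib.TC.Conv

/-!
# Module TE.Cmp: composition of uniformizable valuations, isomorphisms, trivial valuations
-/

open IsLocalRing

namespace Pool.Agent.Lib.TE

open TC
open Pool.Agent.Lib.MP_3029eb_ag Pool.Agent.Lib.MP_3029eb_ag.Abh

private theorem cmp_val_one {F L : Type} [Field F] [Field L] (W : ValuationSubring L)
    (φ : F →+* L) (z : F) : (W.comap φ).valuation z = 1 ↔ W.valuation (φ z) = 1 := by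
  rw [C1_val_one_iff, C1_val_one_iff]
  show φ z ∈ W ∧ φ z⁻¹ ∈ W ∧ z ≠ 0 ↔ φ z ∈ W ∧ (φ z)⁻¹ ∈ W ∧ φ z ≠ 0
  rw [map_inv₀, Ne, Ne, map_eq_zero]

/-- the fraction field of a local subring of the residue field -/
private theorem cmp_frac {Rb L0 : Type} [CommRing Rb] [Field L0] (W : ValuationSubring L0)
    (B : Subring L0) (hBW : B ≤ W.toSubring) (hloc : locV W B = B) (f : Rb →+* B) (hf : EFT f)
    {r : ℕ}
    (H : ∀ (L : Type) [Field L] (ψ : Rb →+* L) (j : L →+* L0), EFT ψ →
      (∀ c, j (ψ c) = f c) → B ≤ j.range → Unif ψ (W.comap j) r) : EMB3 W B r := by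
  let L := FractionRing B
  have hinj : Function.Injective B.subtype := Subtype.val_injective
  let j : L →+* L0 := IsFractionRing.lift (A := B) (K := L) (g := B.subtype) hinj
  have hj : ∀ b : B, j (algebraMap B L b) = b := fun b =>
    IsFractionRing.lift_algebraMap (A := B) (K := L) (g := B.subtype) hinj b
  have hfr : EFT (algebraMap B L) := by
    show @Algebra.EssFiniteType B L _ _ (algebraMap B L).toAlgebra
    have h1 : (algebraMap B L).toAlgebra = (inferInstance : Algebra B L) :=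
      Algebra.algebra_ext _ _ fun _ => rfl
    rw [h1]
    exact Algebra.EssFiniteType.of_isLocalization L (nonZeroDivisors B)
  have hψ : EFT ((algebraMap B L).comp f) := EFT_comp f _ hf hfr
  have h1 := H L ((algebraMap B L).comp f) j hψ (fun c => hj (f c)) (fun b hb =>
    ⟨algebraMap B L ⟨b, hb⟩, hj ⟨b, hb⟩⟩)
  let A0 : Subring L := (algebraMap B L).range
  have hmap : A0.map j = B := by
    ext z
    constructor
    · rintro ⟨_, ⟨b, rfl⟩, rfl⟩
      rw [hj]
      exact b.2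
    · intro hz
      exact ⟨algebraMap B L ⟨z, hz⟩, ⟨⟨z, hz⟩, rfl⟩, hj ⟨z, hz⟩⟩
  have hA0 : A0 ≤ (W.comap j).toSubring := by
    rintro _ ⟨b, rfl⟩
    show j (algebraMap B L b) ∈ W
    rw [hj]
    exact hBW b.2
  have hfrac : ∀ z : L, ∃ a ∈ A0, ∃ b ∈ A0, b ≠ 0 ∧ z * b = a := by
    intro z
    obtain ⟨⟨a, b⟩, hab⟩ := IsLocalization.surj (nonZeroDivisors B) z
    refine ⟨_, ⟨a, rfl⟩, _, ⟨b, rfl⟩, ?_, hab⟩
    intro h0
    exact nonZeroDivisors.ne_zero b.2 (IsFractionRing.injective B L (by rw [h0, map_zero]))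
  refine EMB3_map j W (W.comap j) (fun z => Iff.rfl) (fun z => cmp_val_one W j z) B A0 hmap hfrac
    ?_ ?_
  · rintro z ⟨a, ha, b, hb, hb0, h⟩
    refine ⟨algebraMap B L ⟨a, ha⟩ / algebraMap B L ⟨b, hb⟩, ?_⟩
    rw [map_div₀, hj, hj]
    exact (eq_div_of_mul_eq hb0 h).symm
  · refine h1 A0 hA0 ?_ ((algebraMap B L).rangeRestrict.comp f) (fun c => rfl)
      (EFT_comp_surjective f _ hf (algebraMap B L).rangeRestrict_surjective) hfrac
    refine le_antisymm ?_ (le_locV _ _)
    rintro z ⟨_, ⟨a, rfl⟩, _, ⟨b, rfl⟩, hb1, hz⟩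
    have hb1' : W.valuation (b : L0) = 1 := by
      have h2 := (cmp_val_one W j _).1 hb1
      rwa [hj] at h2
    have h3 : j z ∈ locV W B := ⟨a, a.2, b, b.2, hb1', by
      rw [← hj a, ← hz, map_mul, hj]⟩
    rw [hloc] at h3
    exact ⟨⟨j z, h3⟩, j.injective (hj ⟨j z, h3⟩)⟩

/-- Composition: `V1` is uniformizable, and the residual valuation of `V` is uniformizable on all
large enough finitely generated subfields of the residue field of `V1`. -/
theorem unif_comp {Rb K : Type} [CommRing Rb] [IsNoetherianRing Rb] [Field K] (φ : Rb →+* K)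
    {V V1 : ValuationSubring K} (h : V ≤ V1) (G : Finset (ResidueField V1)) {r1 r2 : ℕ}
    (H1 : Unif φ V1 r1)
    (H2 : ∀ (L : Type) [Field L] (ψ : Rb →+* L) (j : L →+* ResidueField V1), EFT ψ →
      (∀ c, ∃ hc : φ c ∈ V1, j (ψ c) = residue V1 ⟨φ c, hc⟩) → (∀ g ∈ G, g ∈ j.range) →
      Unif ψ ((resV V V1 h).comap j) r2) :
    Unif φ V (r1 + r2) := by
  classical
  intro A hA hloc f hfφ hf hfrac
  have hlift : ∀ w : ResidueField V1, ∃ t : K, t ∈ V ∧ (rs V1 t = w ∨ (rs V1 t)⁻¹ = w) := by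
    intro w
    rcases (resV V V1 h).mem_or_inv_mem w with hw | hw
    · obtain ⟨u, hu, hr⟩ := (C1_mem_resV h w).1 hw
      exact ⟨u, hu, Or.inl (by rw [rs_coe]; exact hr)⟩
    · obtain ⟨u, hu, hr⟩ := (C1_mem_resV h w⁻¹).1 hw
      exact ⟨u, hu, Or.inr (by rw [rs_coe, hr, inv_inv])⟩
  choose t htV ht using hlift
  set g : Finset K := G.image t with hg
  have hgV : ∀ t ∈ g, t ∈ V ∧ ∃ a ∈ A, ∃ b ∈ A, b ≠ 0 ∧ t * b = a := by
    intro z hz
    refine ⟨?_, hfrac z⟩
    obtain ⟨w, _, rfl⟩ := Finset.mem_image.1 hz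
    exact htV w
  refine EMB3_trans V A g hgV ?_ hA
  have hcl : Subring.closure ((A : Set K) ∪ (g : Set K)) ≤ V.toSubring :=
    closure_le_val V A hA _ fun t ht => (hgV t ht).1
  have hA' : locV V (Subring.closure ((A : Set K) ∪ (g : Set K))) ≤ V.toSubring :=
    locV_le _ hcl
  have hloc' := locV_locV V (Subring.closure ((A : Set K) ∪ (g : Set K)))
  have hAA' : A ≤ locV V (Subring.closure ((A : Set K) ∪ (g : Set K))) :=
    fun a ha => le_locV _ _ (Subring.subset_closure (Or.inl ha))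
  have hf' : ∃ f' : Rb →+* locV V (Subring.closure ((A : Set K) ∪ (g : Set K))), EFT f' ∧
      ∀ c, (f' c : K) = φ c :=
    ⟨_, EFT_locV V A f hf g (Subring.inclusion hAA') (fun a => rfl), fun c => hfφ c⟩
  have hgA' : ∀ t ∈ g, t ∈ locV V (Subring.closure ((A : Set K) ∪ (g : Set K))) := fun t ht =>
    le_locV _ _ (Subring.subset_closure (Or.inr ht))
  generalize locV V (Subring.closure ((A : Set K) ∪ (g : Set K))) = A' at *
  obtain ⟨f', hf', hf'φ⟩ := hf'
  have nA' : IsNoetherianRing A' := hf'.isNoetherianRing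
  have hfrac' : ∀ z : K, ∃ a ∈ A', ∃ b ∈ A', b ≠ 0 ∧ z * b = a := by
    intro z
    obtain ⟨a, ha, b, hb, hb0, h⟩ := hfrac z
    exact ⟨a, hAA' ha, b, hAA' hb, hb0, h⟩
  have hA'V1 : A' ≤ V1.toSubring := hA'.trans h
  refine EMB3_comp h A' hA' ?_ ?_
  · -- the coarser valuation
    refine H1 (locV V1 A') (locV_le _ hA'V1) (locV_locV _ _)
      ((Subring.inclusion (le_locV V1 A')).comp f') (fun c => hf'φ c)
      (EFT_locV' V1 A' f' hf' (Subring.inclusion (le_locV V1 A')) (fun a => rfl)) ?_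
    intro z
    obtain ⟨a, ha, b, hb, hb0, h⟩ := hfrac' z
    exact ⟨a, le_locV _ _ ha, b, le_locV _ _ hb, hb0, h⟩
  · -- the residual valuation
    intro g1 hg1
    have hcl1 : Subring.closure ((A' : Set K) ∪ (g1 : Set K)) ≤ V.toSubring :=
      closure_le_val V A' hA' _ fun t ht => (hg1 t ht).1
    have hA1V : locV V (Subring.closure ((A' : Set K) ∪ (g1 : Set K))) ≤ V.toSubring :=
      locV_le V hcl1
    have hAA1 : A' ≤ locV V (Subring.closure ((A' : Set K) ∪ (g1 : Set K))) :=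
      fun a ha => le_locV V _ (Subring.subset_closure (Or.inl ha))
    have hf1 : EFT ((Subring.inclusion hAA1).comp f') :=
      EFT_locV V A' f' hf' g1 (Subring.inclusion hAA1) (fun a => rfl)
    have hA1l := locV_locV V (Subring.closure ((A' : Set K) ∪ (g1 : Set K)))
    have hf1φ : ∀ c, (((Subring.inclusion hAA1).comp f') c : K) = φ c :=
      fun c => hf'φ c
    generalize (Subring.inclusion hAA1).comp f' = f1 at *
    have hgA1 : ∀ t ∈ g, t ∈ locV V (Subring.closure ((A' : Set K) ∪ (g1 : Set K))) :=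
      fun t ht => hAA1 (hgA' t ht)
    generalize locV V (Subring.closure ((A' : Set K) ∪ (g1 : Set K))) = A1 at *
    have hA1V1 : A1 ≤ V1.toSubring := hA1V.trans h
    refine cmp_frac (resV V V1 h) (im V1 A1) (im_le_resV h _ hA1V) (locV_im h _ hA1V hA1l)
      ((toIm V1 A1 hA1V1).comp f1) (EFT_comp_surjective _ _ hf1 (toIm_surjective V1 _ _)) ?_
    intro L _ ψ j hψ hj hBj
    refine H2 L ψ j hψ (fun c => ?_) (fun w hw => ?_)
    · have hc : φ c ∈ V1 := by
        rw [← hf1φ c]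
        exact hA1V1 (f1 c).2
      refine ⟨hc, ?_⟩
      rw [hj c]
      show residue V1 ⟨(f1 c : K), hA1V1 (f1 c).2⟩ = residue V1 ⟨φ c, hc⟩
      congr 1
      exact Subtype.ext (hf1φ c)
    · have h1 : rs V1 (t w) ∈ im V1 A1 := (mem_im_iff hA1V1 _).2
        ⟨_, hgA1 _ (Finset.mem_image_of_mem t hw), rfl⟩
      obtain ⟨l, hl⟩ := hBj h1
      rcases ht w with h2 | h2
      · exact ⟨l, by rw [hl, h2]⟩
      · exact ⟨l⁻¹, by rw [map_inv₀, hl, h2]⟩

/-- isomorphisms -/
theorem unif_equiv {Rb K1 K : Type} [CommRing Rb] [Field K1] [Field K] (φ1 : Rb →+* K1)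
    (e : K1 →+* K) (he : Function.Surjective e) (V : ValuationSubring K) {r : ℕ}
    (H : Unif φ1 (V.comap e) r) : Unif (e.comp φ1) V r := by
  intro A hA hloc f hfφ hf hfrac
  have hmap : (A.comap e).map e = A := by
    ext z
    constructor
    · rintro ⟨w, hw, rfl⟩
      exact hw
    · intro hz
      obtain ⟨w, rfl⟩ := he z
      exact ⟨w, hz, rfl⟩
  have hfrac1 : ∀ z : K1, ∃ a ∈ A.comap e, ∃ b ∈ A.comap e, b ≠ 0 ∧ z * b = a := by
    intro z
    obtain ⟨a, ha, b, hb, hb0, h⟩ := hfrac (e z)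
    obtain ⟨a, rfl⟩ := he a
    obtain ⟨b, rfl⟩ := he b
    refine ⟨a, ha, b, hb, fun h0 => hb0 (by rw [h0, map_zero]), e.injective ?_⟩
    rw [map_mul, h]
  -- the isomorphism of `A` and its preimage
  have hpre : ∀ a : A, ∃ w : K1, e w = a := fun a => he a
  let g0 : A.comap e →+* A := (e.comp (A.comap e).subtype).codRestrict A fun w => w.2
  have hg0 : Function.Bijective g0 := by
    constructor
    · intro a b hab
      exact Subtype.ext (e.injective (congrArg Subtype.val hab))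
    · intro a
      obtain ⟨w, hw⟩ := hpre a
      have hw' : w ∈ A.comap e := by
        show e w ∈ A
        rw [hw]
        exact a.2
      exact ⟨⟨w, hw'⟩, Subtype.ext hw⟩
  let E := RingEquiv.ofBijective g0 hg0
  have hE : ∀ a : A, e ((E.symm a : A.comap e) : K1) = a := by
    intro a
    have h1 : E (E.symm a) = a := E.apply_symm_apply a
    exact congrArg Subtype.val h1
  refine EMB3_map e V (V.comap e) (fun z => Iff.rfl) (fun z => cmp_val_one V e z) A (A.comap e)
    hmap hfrac1 (fun z _ => he z) ?_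
  refine H (A.comap e) (fun z hz => hA hz) ?_ ((E.symm : A →+* A.comap e).comp f) (fun c => ?_)
    (EFT_comp_surjective f _ hf E.symm.surjective) hfrac1
  · refine le_antisymm ?_ (le_locV _ _)
    rintro z ⟨a, ha, b, hb, hb1, hz⟩
    show e z ∈ A
    rw [← hloc]
    exact ⟨e a, ha, e b, hb, (cmp_val_one V e b).1 hb1, by rw [← map_mul, hz]⟩
  · apply e.injective
    show e ((E.symm (f c) : A.comap e) : K1) = e (φ1 c)
    rw [hE, hfφ]
    rfl

/-- dense extensions (no condition on `V`) -/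
theorem unif_dense' {Rb K1 K : Type} [CommRing Rb] [IsNoetherianRing Rb] [Field K1] [Field K]
    [Algebra K1 K] (φ1 : Rb →+* K1) (V : ValuationSubring K)
    (hd : ∀ z a : K, a ≠ 0 → ∃ z1 : K1, V.valuation (z - algebraMap K1 K z1) < V.valuation a)
    {l : ℕ} (u : Fin l → K) (hu : AlgebraicIndependent K1 u)
    (hsep : Algebra.IsSeparable (IntermediateField.adjoin K1 (Set.range u)) K)
    (hfin : FiniteDimensional (IntermediateField.adjoin K1 (Set.range u)) K) {r : ℕ}
    (H : TC.Unif φ1 (V.comap (algebraMap K1 K)) r) :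
    TC.Unif ((algebraMap K1 K).comp φ1) V r := by
  by_cases hV : ∃ z : K, z ≠ 0 ∧ V.valuation z < 1
  · exact unif_dense φ1 V hV hd u hu hsep hfin H
  · refine unif_equiv φ1 (algebraMap K1 K) (fun z => ?_) V H
    obtain ⟨z1, hz1⟩ := hd z 1 one_ne_zero
    rw [map_one] at hz1
    by_contra hcon
    exact hV ⟨_, fun h0 => hcon ⟨z1, (sub_eq_zero.1 h0).symm⟩, hz1⟩

end Pool.Agent.Lib.TE
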