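import Pool.Agent.Lib.TC.Defs
import Pool.Agent.Lib.TC.Reg
import Pool.Agent.Lib.MP_3029eb_ag.RB
import Pool.Agent.Lib.MP_3029eb_ag.Comp2
import Pool.Agent.Lib.MP_3029eb_ag.AbhA2
import Mathlib.RingTheory.KrullDimension.Polynomial

/-!
# Module DimE: adjoining a transcendental element, or an element satisfying an etale equation
`A1` is a noetherian local subring of `K1` dominated by `V1 := V.comap j`, `a ∈ K`, `V a < 1`, `A' := locV V (closure (j A1 ∪ {a}))`.

PROOFS. `poly_mem`: elements of `closure (j A1 ∪ {a})` are `P(a)`, `P` a polynomial with coefficients in `A1` (closure induction), `P(a) - P(0)` is a multiple of `a`.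
`unit_of`: `1 + ε(a)`, `ε` with coefficients in `A1`, `ε(0) = 0`, is in the closure and has value one, so it is a unit of `A'`.
`dim_tr` (`a` transcendental over `K1`): let `𝔐 := (m, X) = comap of the maximal ideal` in `A1[X]`, the kernel of `A1[X] → residue field of A1`, `X ↦ 0`; maximal, over the maximal ideal `m` of `A1`
(`Ideal.LiesOver`), so `height 𝔐 = height m + 1 = dim A1 + 1` (`Polynomial.height_eq_height_add_one`, `IsLocalRing.maximalIdeal_height_eq_ringKrullDim`).  `A'` is isomorphic to the localization of `A1[X]` at `𝔐`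
(`X ↦ a` is injective, `P(a)` has value one iff `P(0)` has value one iff `P ∉ 𝔐`), dimension of a localization at a prime is the height (`IsLocalization.AtPrime.ringKrullDim_eq_height`).
`dim_et`: `C := Localization.AtPrime 𝔐` (noetherian local, dimension `dim A1 + 1`), `F := X + ε ∈ 𝔐`.  `C / (F)` is local, `dim (C / (F)) ≥ dim C - 1 ≥ n` (Krull: `ringKrullDim_le_ringKrullDim_quotient_add_one` or
`..._spanFinrank`, search `ringKrullDim_quotient`), its maximal ideal is generated by the images of the `n` generators `w` of `m` (`X ≡ -ε ∈ m C` modulo `F`), so it is a regular local ring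
(`IsRegularLocalRing`, `ringKrullDim_le_spanFinrank_maximalIdeal`), so a domain (`isDomain_of_isRegularLocalRing`, `MP_3029eb_ag/RB.lean`).  `X ↦ a` induces a surjection `C / (F) → A'`; its kernel `𝔮` is zero: the composition
`A1 → C / (F) → A'` is injective, and `X` satisfies `F = 0`, a polynomial over `A1` which is nonzero (its coefficient of degree one is `1 + ε_1`, a unit), so
every element of `C / (F)` is algebraic over `A1`; a nonzero `c ∈ 𝔮` satisfies `∑ b_i c ^ i = 0` with `b_i ∈ A1`, `b_0 ≠ 0` (domain), so `b_0 ∈ 𝔮 ∩ A1 = 0`.  So `dim A' = dim (C / (F)) ≥ n`.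
-/

namespace Pool.Agent.Lib.TE

open Polynomial Pool.Agent.Lib.MP_3029eb_ag Pool.Agent.Lib.MP_3029eb_ag.Abh IsLocalRing

section aux

/-- the value of a polynomial at an element of value less than one -/
theorem DE_cen {K : Type} [Field K] (V : ValuationSubring K) {A : Subring K}
    (hA : A ≤ V.toSubring) (t : K) (ht : V.valuation t < 1) (p : A[X]) :
    V.valuation (eval₂ A.subtype t p) < 1 ↔ V.valuation ((p.coeff 0 : A) : K) < 1 := by
  have hV : ∀ z ∈ Subring.closure ((A : Set K) ∪ {t}), V.valuation z ≤ 1 := fun z hz =>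
    (V.valuation_le_one_iff _).2 (A2_closure_le V hA
      (by rintro z rfl; exact (V.valuation_le_one_iff _).1 ht.le) hz)
  have h1 : eval₂ A.subtype t p = eval₂ A.subtype t p.divX * t + ((p.coeff 0 : A) : K) := by
    conv_lhs => rw [← divX_mul_X_add p]
    rw [eval₂_add, eval₂_mul, eval₂_X, eval₂_C]
    rfl
  have h2 : V.valuation (eval₂ A.subtype t p.divX * t) < 1 := by
    rw [map_mul]
    exact (mul_le_of_le_one_left' (hV _ (A2_eval_mem A t _))).trans_lt ht
  constructor
  · intro h
    have h3 : ((p.coeff 0 : A) : K) = eval₂ A.subtype t p - eval₂ A.subtype t p.divX * t := by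
      rw [h1]; ring
    rw [h3]
    exact Valuation.map_sub_lt _ h h2
  · intro h
    rw [h1]
    exact Valuation.map_add_lt _ h2 h

theorem DE_height {K : Type} [Field K] (V : ValuationSubring K) {A : Subring K}
    [IsNoetherianRing A] (hA : A ≤ V.toSubring) (hloc : locV V A = A) (t : K)
    (ht : V.valuation t < 1) (ht' : t ∈ V) :
    ringKrullDim (Localization.AtPrime (A2_cen V A hA t ht')) = ringKrullDim A + 1 := by
  have hL : IsLocalRing A := A2_isLocal V hA hloc
  set P := A2_cen V A hA t ht' with hP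
  have hmem : ∀ p : A[X], p ∈ P ↔ p.coeff 0 ∈ maximalIdeal A := by
    intro p
    rw [hP, A2_mem_cen, DE_cen V hA t ht, A2_mem_maximalIdeal V hA hloc]
  have hker : P = RingHom.ker ((residue A).comp (constantCoeff (R := A))) := by
    ext p
    rw [hmem, RingHom.mem_ker, RingHom.comp_apply, residue_eq_zero_iff]
    rfl
  have hsurj : Function.Surjective ((residue A).comp (constantCoeff (R := A))) := by
    intro x
    obtain ⟨a, rfl⟩ := residue_surjective x
    exact ⟨C a, by rw [RingHom.comp_apply, constantCoeff_apply, coeff_C_zero]⟩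
  have hmax : P.IsMaximal := by
    rw [hker]
    exact RingHom.ker_isMaximal_of_surjective _ hsurj
  have hover : P.LiesOver (maximalIdeal A) := by
    constructor
    ext a
    rw [Ideal.mem_under, hmem, algebraMap_eq, coeff_C_zero]
  rw [IsLocalization.AtPrime.ringKrullDim_eq_height P (Localization.AtPrime P),
    Polynomial.height_eq_height_add_one (maximalIdeal A) P, WithBot.coe_add, WithBot.coe_one,
    IsLocalRing.maximalIdeal_height_eq_ringKrullDim]

/-- the localization of the polynomial ring at the centre maps onto the localized extension -/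
theorem DE_lift {K : Type} [Field K] (V : ValuationSubring K) {A : Subring K}
    (hA : A ≤ V.toSubring) (t : K) (ht : t ∈ V) :
    ∃ l : Localization.AtPrime (A2_cen V A hA t ht) →+*
        locV V (Subring.closure ((A : Set K) ∪ {t})),
      Function.Surjective l ∧ ∀ p : A[X], (l (algebraMap _ _ p) : K) = eval₂ A.subtype t p := by
  set P := A2_cen V A hA t ht with hPdef
  set B := Subring.closure ((A : Set K) ∪ {t}) with hB
  have hBV : B ≤ V.toSubring := A2_closure_le V hA (by rintro z rfl; exact ht)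
  let ψ : Polynomial A →+* locV V B :=
    (Polynomial.eval₂RingHom A.subtype t).codRestrict (locV V B)
      (fun p => le_locV V B (A2_eval_mem A t p))
  have hψ : ∀ p, (ψ p : K) = Polynomial.eval₂ A.subtype t p := fun p => rfl
  have hunit : ∀ y : P.primeCompl, IsUnit (ψ y) := by
    intro y
    rw [isUnit_locV_iff V hBV, hψ]
    refine le_antisymm ((V.valuation_le_one_iff _).2 (hBV (A2_eval_mem A t y))) ?_
    rw [← not_lt]
    intro h
    exact y.2 ((A2_mem_cen V A hA t ht _).2 h)
  let l : Localization.AtPrime P →+* locV V B := IsLocalization.lift (M := P.primeCompl) hunit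
  have hl : Function.Surjective l := by
    rintro ⟨z, a, ha, b, hb, hb1, hab⟩
    obtain ⟨p, hp⟩ := A2_exists_eval A t ha
    obtain ⟨q, hq⟩ := A2_exists_eval A t hb
    have hqP : q ∈ P.primeCompl := by
      intro h
      have h1 := (A2_mem_cen V A hA t ht q).1 h
      rw [hq, hb1] at h1
      exact lt_irrefl _ h1
    refine ⟨IsLocalization.mk' (Localization.AtPrime P) p ⟨q, hqP⟩, ?_⟩
    rw [IsLocalization.lift_mk'_spec]
    apply Subtype.ext
    rw [Subring.coe_mul, hψ, hψ]
    show _ = Polynomial.eval₂ A.subtype t q * z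
    rw [hp, hq, ← hab, mul_comm]
  refine ⟨l, hl, fun p => ?_⟩
  show ((IsLocalization.lift (M := P.primeCompl) hunit (algebraMap _ _ p) : locV V B) : K) = _
  rw [IsLocalization.lift_eq, hψ]

theorem DE_tr {K : Type} [Field K] (V : ValuationSubring K) {A : Subring K}
    [IsNoetherianRing A] (hA : A ≤ V.toSubring) (hloc : locV V A = A) (t : K)
    (ht : V.valuation t < 1) (htr : ∀ p : A[X], eval₂ A.subtype t p = 0 → p = 0) :
    ringKrullDim A + 1 ≤ ringKrullDim (locV V (Subring.closure ((A : Set K) ∪ {t}))) := by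
  have ht' : t ∈ V := (V.valuation_le_one_iff _).1 ht.le
  obtain ⟨l, hl, hlp⟩ := DE_lift V hA t ht'
  have hinj : Function.Injective l := by
    rw [injective_iff_map_eq_zero]
    intro x hx
    obtain ⟨p, q, rfl⟩ := IsLocalization.exists_mk'_eq (A2_cen V A hA t ht').primeCompl x
    have h1 : l (algebraMap _ _ p) = 0 := by
      rw [← IsLocalization.mk'_spec (Localization.AtPrime (A2_cen V A hA t ht')) p q, map_mul, hx,
        zero_mul]
    have h2 : p = 0 := by
      apply htr
      rw [← hlp, h1]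
      rfl
    rw [h2, IsLocalization.mk'_zero]
  rw [← DE_height V hA hloc t ht ht']
  exact (ringKrullDim_eq_of_ringEquiv (RingEquiv.ofBijective l ⟨hinj, hl⟩)).le

theorem DE_alg {A D B : Type} [CommRing A] [IsDomain A] [CommRing D] [IsDomain D] [CommRing B]
    (ρ : A[X] →+* D) (F : A[X]) (hF : F ≠ 0) (hρF : ρ F = 0) (l : D →+* B)
    (hinj : ∀ a : A, l (ρ (C a)) = 0 → a = 0) (p : A[X]) (hp : l (ρ p) = 0) : ρ p = 0 := by
  let _ : Algebra A D := (ρ.comp C).toAlgebra
  have hae : ∀ p : A[X], ρ p = aeval (ρ X) p := by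
    intro p
    have h1 : ρ = (aeval (R := A) (ρ X)).toRingHom := by
      apply Polynomial.ringHom_ext
      · intro a
        show ρ (C a) = aeval (ρ X) (C a)
        rw [aeval_C]
        rfl
      · show ρ X = aeval (ρ X) X
        rw [aeval_X]
    exact congrArg (fun f : A[X] →+* D => f p) h1
  have hX : IsAlgebraic A (ρ X) := ⟨F, hF, by rw [← hae, hρF]⟩
  have halg : ∀ p : A[X], IsAlgebraic A (ρ p) := by
    intro p
    induction p using Polynomial.induction_on' with
    | add p q hp hq => rw [map_add]; exact hp.add hq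
    | monomial n a =>
      rw [← C_mul_X_pow_eq_monomial, map_mul, map_pow]
      refine IsAlgebraic.mul ?_ (hX.pow n)
      exact isAlgebraic_algebraMap (A := D) a
  by_contra h0
  obtain ⟨r, hr, s, hs⟩ := (halg p).exists_nonzero_dvd (mem_nonZeroDivisors_of_ne_zero h0)
  apply hr
  apply hinj
  have h1 : ρ (C r) = ρ p * s := hs
  rw [h1, map_mul, hp, zero_mul]

theorem DE_core {A B Cc : Type} [CommRing A] [IsDomain A] [IsLocalRing A] [IsNoetherianRing A]
    [CommRing B] [CommRing Cc] [IsLocalRing Cc] (P : Ideal A[X]) [P.IsPrime] [Algebra A[X] Cc]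
    [IsLocalization.AtPrime Cc P] (hmem : ∀ p : A[X], p ∈ P ↔ p.coeff 0 ∈ maximalIdeal A)
    (hCdim : ringKrullDim Cc = ringKrullDim A + 1) (l : Cc →+* B) (hl : Function.Surjective l)
    (hlC : ∀ a : A, l (algebraMap A[X] Cc (C a)) = 0 → a = 0) {n : ℕ} (w : Fin n → A)
    (hw : ∀ i, w i ∈ maximalIdeal A) (hgen : maximalIdeal A ≤ Ideal.span (Set.range w))
    (hdim : ((n : ℕ) : WithBot ℕ∞) ≤ ringKrullDim A)
    (ε : A[X]) (hε : ∀ k, ε.coeff k ∈ maximalIdeal A)
    (h0 : l (algebraMap A[X] Cc (X + ε)) = 0) :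
    ((n : ℕ) : WithBot ℕ∞) ≤ ringKrullDim B := by
  have hεm : ε ∈ (maximalIdeal A).map (C : A →+* A[X]) := by
    rw [Ideal.mem_map_C_iff]
    exact hε
  let F : A[X] := X + ε
  have hFcoeff : F.coeff 1 = 1 + ε.coeff 1 := by
    rw [coeff_add, coeff_X_one]
  have hF0 : F ≠ 0 := by
    intro h
    rw [h, coeff_zero] at hFcoeff
    have h1 : (1 : A) ∈ maximalIdeal A := by
      have h2 : (1 : A) = - ε.coeff 1 := by
        rw [eq_neg_iff_add_eq_zero]
        exact hFcoeff.symm
      rw [h2]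
      exact neg_mem (hε 1)
    exact (Ideal.ne_top_iff_one _).1 (maximalIdeal.isMaximal A).ne_top h1
  have hFP : F ∈ P := by
    rw [hmem, coeff_add, coeff_X_zero, zero_add]
    exact hε 0
  have hnoe : IsNoetherianRing Cc :=
    IsLocalization.isNoetherianRing P.primeCompl Cc inferInstance
  have hmapP : P.map (algebraMap A[X] Cc) = maximalIdeal Cc :=
    IsLocalization.AtPrime.map_eq_maximalIdeal P Cc
  have hFm : algebraMap A[X] Cc F ∈ maximalIdeal Cc := by
    rw [← hmapP]
    exact Ideal.mem_map_of_mem _ hFP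
  let I : Ideal Cc := Ideal.span {algebraMap A[X] Cc F}
  have hIm : I ≤ maximalIdeal Cc := by
    rw [Ideal.span_le]
    rintro _ rfl
    exact hFm
  have hItop : I ≠ ⊤ := fun h =>
    (maximalIdeal.isMaximal Cc).ne_top (top_le_iff.1 (h ▸ hIm))
  have : Nontrivial (Cc ⧸ I) := Ideal.Quotient.nontrivial_iff.2 hItop
  have hDloc : IsLocalRing (Cc ⧸ I) :=
    IsLocalRing.of_surjective' (Ideal.Quotient.mk I) Ideal.Quotient.mk_surjective
  have hDnoe : IsNoetherianRing (Cc ⧸ I) := inferInstance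
  have hd1 : ((n : ℕ) : WithBot ℕ∞) ≤ ringKrullDim (Cc ⧸ I) := by
    have h1 : ((maximalIdeal Cc).height : WithBot ℕ∞) ≤ ringKrullDim (Cc ⧸ I) + 1 :=
      Ideal.height_le_ringKrullDim_quotient_add_one hFm
    rw [IsLocalRing.maximalIdeal_height_eq_ringKrullDim, hCdim] at h1
    obtain ⟨a, ha⟩ := RB_dim_nat A
    obtain ⟨d, hd⟩ := RB_dim_nat (Cc ⧸ I)
    rw [ha] at h1 hdim
    rw [hd] at h1 ⊢
    have h2 : a + 1 ≤ d + 1 := by exact_mod_cast h1
    have h3 : n ≤ a := by exact_mod_cast hdim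
    have h4 : n ≤ d := by omega
    exact_mod_cast h4
  let ρ : A[X] →+* Cc ⧸ I := (Ideal.Quotient.mk I).comp (algebraMap A[X] Cc)
  have hρF : ρ F = 0 := by
    show Ideal.Quotient.mk I (algebraMap A[X] Cc F) = 0
    rw [Ideal.Quotient.eq_zero_iff_mem]
    exact Ideal.subset_span rfl
  let v : Fin n → Cc ⧸ I := fun i => ρ (C (w i))
  have hmapC : (maximalIdeal A).map (C : A →+* A[X]) ≤ (Ideal.span (Set.range v)).comap ρ := by
    rw [Ideal.map_le_iff_le_comap]
    refine hgen.trans ?_
    rw [Ideal.span_le]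
    rintro _ ⟨i, rfl⟩
    exact Ideal.subset_span ⟨i, rfl⟩
  have hXm : ρ X ∈ Ideal.span (Set.range v) := by
    have h1 : ρ X = ρ F - ρ ε := by
      rw [← map_sub]
      congr 1
      show X = X + ε - ε
      ring
    rw [h1, hρF, zero_sub]
    exact neg_mem (hmapC hεm)
  have hPρ : P ≤ (Ideal.span (Set.range v)).comap ρ := by
    intro p hp
    rw [Ideal.mem_comap, ← divX_mul_X_add p, map_add, map_mul]
    refine add_mem (Ideal.mul_mem_left _ _ hXm) ?_
    exact hmapC (Ideal.mem_map_of_mem _ ((hmem p).1 hp))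
  have hDmax : maximalIdeal (Cc ⧸ I) ≤ Ideal.span (Set.range v) := by
    intro x hx
    obtain ⟨c, rfl⟩ := Ideal.Quotient.mk_surjective x
    have hc : c ∈ maximalIdeal Cc := by
      rw [mem_maximalIdeal, mem_nonunits_iff] at hx ⊢
      exact fun h => hx (h.map _)
    rw [← hmapP] at hc
    have h1 : P.map (algebraMap A[X] Cc) ≤
        (Ideal.span (Set.range v)).comap (Ideal.Quotient.mk I) := by
      rw [Ideal.map_le_iff_le_comap, Ideal.comap_comap]
      exact hPρ
    exact h1 hc
  have hw' : ∀ i, v i ∈ maximalIdeal (Cc ⧸ I) := by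
    intro i
    rw [mem_maximalIdeal, mem_nonunits_iff]
    intro hu
    obtain ⟨y, hy⟩ := hu.exists_right_inv
    obtain ⟨y, rfl⟩ := Ideal.Quotient.mk_surjective y
    have h1 : algebraMap A[X] Cc (C (w i)) * y - 1 ∈ I := by
      rw [← Ideal.Quotient.eq_zero_iff_mem, map_sub, map_mul, map_one, sub_eq_zero]
      exact hy
    have h2 : algebraMap A[X] Cc (C (w i)) ∈ maximalIdeal Cc := by
      rw [← hmapP]
      apply Ideal.mem_map_of_mem
      rw [hmem, coeff_C_zero]
      exact hw i
    have h3 : (1 : Cc) ∈ maximalIdeal Cc := by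
      have h4 : (1 : Cc) = algebraMap A[X] Cc (C (w i)) * y -
          (algebraMap A[X] Cc (C (w i)) * y - 1) := by ring
      rw [h4]
      exact sub_mem (Ideal.mul_mem_right _ _ h2) (hIm h1)
    exact (Ideal.ne_top_iff_one _).1 (maximalIdeal.isMaximal Cc).ne_top h3
  have hDeq : maximalIdeal (Cc ⧸ I) = Ideal.span (Set.range v) := by
    apply le_antisymm hDmax
    rw [Ideal.span_le]
    rintro _ ⟨i, rfl⟩
    exact hw' i
  have hfr : (maximalIdeal (Cc ⧸ I)).spanFinrank ≤ n := by
    rw [hDeq]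
    have h1 : (Ideal.span (Set.range v) : Ideal (Cc ⧸ I)).spanFinrank ≤ (Set.range v).ncard :=
      Submodule.spanFinrank_span_le_ncard_of_finite (Set.finite_range v)
    have h2 : (Set.range v).ncard ≤ n := by
      have := Set.ncard_image_le (f := v) (s := Set.univ) Set.finite_univ
      rwa [Set.image_univ, Set.ncard_univ, Nat.card_eq_fintype_card, Fintype.card_fin] at this
    exact h1.trans h2
  have hfr' : ((maximalIdeal (Cc ⧸ I)).spanFinrank : WithBot ℕ∞) ≤ ((n : ℕ) : WithBot ℕ∞) := by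
    exact_mod_cast hfr
  have hreg : IsRegularLocalRing (Cc ⧸ I) :=
    IsRegularLocalRing.of_spanFinrank_maximalIdeal_le _ (hfr'.trans hd1)
  have hdom : IsDomain (Cc ⧸ I) := isDomain_of_isRegularLocalRing _
  have hlI : ∀ x ∈ I, l x = 0 := by
    intro x hx
    obtain ⟨c, rfl⟩ := Ideal.mem_span_singleton'.1 hx
    have h1 : l (algebraMap A[X] Cc F) = 0 := h0
    rw [map_mul, h1, mul_zero]
  let l' := Ideal.Quotient.lift I l hlI
  have hl' : Function.Surjective l' := Ideal.Quotient.lift_surjective_of_surjective _ hlI hl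
  have hinj : Function.Injective l' := by
    rw [injective_iff_map_eq_zero]
    intro x hx
    obtain ⟨c, rfl⟩ := Ideal.Quotient.mk_surjective x
    obtain ⟨p, q, rfl⟩ := IsLocalization.exists_mk'_eq P.primeCompl c
    have h1 : Ideal.Quotient.mk I (IsLocalization.mk' Cc p q) * ρ q = ρ p := by
      show Ideal.Quotient.mk I (IsLocalization.mk' Cc p q) *
        Ideal.Quotient.mk I (algebraMap A[X] Cc q) = Ideal.Quotient.mk I (algebraMap A[X] Cc p)
      rw [← map_mul, IsLocalization.mk'_spec]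
    have h2 : l' (ρ p) = 0 := by
      rw [← h1, map_mul, hx, zero_mul]
    have h3 : ρ p = 0 := by
      refine DE_alg ρ F hF0 hρF l' ?_ p h2
      intro a ha
      exact hlC a ha
    have h5 : IsUnit (ρ (q : A[X])) :=
      (IsLocalization.map_units Cc q).map (Ideal.Quotient.mk I)
    rw [h3] at h1
    exact (h5.mul_left_eq_zero).1 h1
  rw [← ringKrullDim_eq_of_ringEquiv (RingEquiv.ofBijective l' ⟨hinj, hl'⟩)]
  exact hd1

theorem DE_reg {K : Type} [Field K] (V : ValuationSubring K) {A : Subring K}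
    [IsNoetherianRing A] (hA : A ≤ V.toSubring) (hloc : locV V A = A) {n : ℕ} (w : Fin n → A)
    (hw : ∀ i, V.valuation ((w i : A) : K) < 1)
    (hgen : ∀ z : A, V.valuation (z : K) < 1 → z ∈ Ideal.span (Set.range w))
    (hdim : ((n : ℕ) : WithBot ℕ∞) ≤ ringKrullDim A) (t : K) (ht : V.valuation t < 1)
    (ε : A[X]) (hε : ∀ k, V.valuation ((ε.coeff k : A) : K) < 1)
    (h0 : t + eval₂ A.subtype t ε = 0) :
    ((n : ℕ) : WithBot ℕ∞) ≤ ringKrullDim (locV V (Subring.closure ((A : Set K) ∪ {t}))) := by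
  have hL : IsLocalRing A := A2_isLocal V hA hloc
  have ht' : t ∈ V := (V.valuation_le_one_iff _).1 ht.le
  obtain ⟨l, hl, hlp⟩ := DE_lift V hA t ht'
  have hmem : ∀ p : A[X], p ∈ A2_cen V A hA t ht' ↔ p.coeff 0 ∈ maximalIdeal A := by
    intro p
    rw [A2_mem_cen, DE_cen V hA t ht, A2_mem_maximalIdeal V hA hloc]
  refine DE_core (Cc := Localization.AtPrime (A2_cen V A hA t ht')) (A2_cen V A hA t ht') hmem
    (DE_height V hA hloc t ht ht') l hl ?_ w
    (fun i => (A2_mem_maximalIdeal V hA hloc _).2 (hw i))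
    (fun z hz => hgen z ((A2_mem_maximalIdeal V hA hloc _).1 hz)) hdim ε
    (fun k => (A2_mem_maximalIdeal V hA hloc _).2 (hε k)) ?_
  · intro a ha
    have h4 := hlp (C a)
    rw [ha, eval₂_C] at h4
    apply Subtype.ext
    exact h4.symm
  · apply Subtype.ext
    rw [hlp, eval₂_add, eval₂_X]
    exact h0

end aux

variable {K1 K : Type} [Field K1] [Field K] (j : K1 →+* K) (V : ValuationSubring K)

theorem poly_mem (A1 : Subring K1) (a : K) {z : K}
    (hz : z ∈ Subring.closure (((A1.map j : Subring K) : Set K) ∪ {a})) :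
    ∃ P : K1[X], (∀ n, P.coeff n ∈ A1) ∧ z = P.eval₂ j a := by
  have key : ∃ q : A1[X], eval₂ (j.comp A1.subtype) a q = z := by
    induction hz using Subring.closure_induction with
    | mem x hx =>
      rcases hx with ⟨y, hy, rfl⟩ | hx
      · exact ⟨C ⟨y, hy⟩, by rw [eval₂_C]; rfl⟩
      · exact ⟨X, by rw [eval₂_X]; exact hx.symm⟩
    | zero => exact ⟨0, eval₂_zero _ _⟩
    | one => exact ⟨1, eval₂_one _ _⟩
    | add x y _ _ hx hy =>
      obtain ⟨p, hp⟩ := hx
      obtain ⟨q, hq⟩ := hy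
      exact ⟨p + q, by rw [eval₂_add, hp, hq]⟩
    | neg x _ hx =>
      obtain ⟨p, hp⟩ := hx
      exact ⟨-p, by rw [eval₂_neg, hp]⟩
    | mul x y _ _ hx hy =>
      obtain ⟨p, hp⟩ := hx
      obtain ⟨q, hq⟩ := hy
      exact ⟨p * q, by rw [eval₂_mul, hp, hq]⟩
  obtain ⟨q, rfl⟩ := key
  refine ⟨q.map A1.subtype, fun n => ?_, ?_⟩
  · rw [coeff_map]
    exact (q.coeff n).2
  · rw [eval₂_map]

theorem DE_eval_mem (A1 : Subring K1) (a : K) (P : K1[X]) (hP : ∀ n, P.coeff n ∈ A1) :
    P.eval₂ j a ∈ Subring.closure (((A1.map j : Subring K) : Set K) ∪ {a}) := by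
  rw [eval₂_eq_sum_range]
  refine sum_mem fun i _ => mul_mem ?_ (pow_mem ?_ i)
  · exact Subring.subset_closure (Or.inl ⟨_, hP i, rfl⟩)
  · exact Subring.subset_closure (Or.inr (Set.mem_singleton a))

theorem DE_map_le {A1 : Subring K1} (hA1 : A1 ≤ (V.comap j).toSubring) :
    (A1.map j : Subring K) ≤ V.toSubring := by
  rintro _ ⟨y, hy, rfl⟩
  exact hA1 hy

theorem DE_divX (a : K) (P : K1[X]) :
    P.eval₂ j a = P.divX.eval₂ j a * a + j (P.coeff 0) := by
  conv_lhs => rw [← divX_mul_X_add P]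
  rw [eval₂_add, eval₂_mul, eval₂_X, eval₂_C]

theorem DE_divX_mem (A1 : Subring K1) (P : K1[X]) (hP : ∀ n, P.coeff n ∈ A1) (n : ℕ) :
    P.divX.coeff n ∈ A1 := by
  rw [coeff_divX]
  exact hP (n + 1)

theorem DE_le_one {A1 : Subring K1} (hA1 : A1 ≤ (V.comap j).toSubring) {a : K}
    (ha : V.valuation a < 1) {z : K}
    (hz : z ∈ Subring.closure (((A1.map j : Subring K) : Set K) ∪ {a})) : V.valuation z ≤ 1 :=
  (V.valuation_le_one_iff _).2 (A2_closure_le V (DE_map_le j V hA1)
    (by rintro z rfl; exact (V.valuation_le_one_iff _).1 ha.le) hz)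

theorem gen_E (A1 : Subring K1) (hA1 : A1 ≤ (V.comap j).toSubring) (a : K)
    (ha : V.valuation a < 1) {z : K}
    (hz : z ∈ locV V (Subring.closure (((A1.map j : Subring K) : Set K) ∪ {a})))
    (h1 : V.valuation z < 1) :
    ∃ c ∈ A1, V.valuation (j c) < 1 ∧
      ∃ u ∈ locV V (Subring.closure (((A1.map j : Subring K) : Set K) ∪ {a})),
      ∃ d ∈ locV V (Subring.closure (((A1.map j : Subring K) : Set K) ∪ {a})),
        z = j c * u + d * a := by
  obtain ⟨x, hx, b, hb, hb1, hxb⟩ := hz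
  obtain ⟨P, hP, hPx⟩ := poly_mem j A1 a hx
  have hb0 : b ≠ 0 := by
    rintro rfl
    rw [map_zero] at hb1
    exact zero_ne_one hb1
  have hd := DE_divX j a P
  have hdm : P.divX.eval₂ j a ∈ Subring.closure (((A1.map j : Subring K) : Set K) ∪ {a}) :=
    DE_eval_mem j A1 a _ (DE_divX_mem A1 P hP)
  have hx1 : V.valuation x < 1 := by
    rw [← hxb, map_mul, hb1, mul_one]
    exact h1
  have hc : V.valuation (j (P.coeff 0)) < 1 := by
    have h2 : j (P.coeff 0) = x - P.divX.eval₂ j a * a := by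
      rw [hPx, hd]; ring
    rw [h2]
    refine Valuation.map_sub_lt _ hx1 ?_
    rw [map_mul]
    exact (mul_le_of_le_one_left' (DE_le_one j V hA1 ha hdm)).trans_lt ha
  refine ⟨P.coeff 0, hP 0, hc, b⁻¹, ⟨1, one_mem _, b, hb, hb1, inv_mul_cancel₀ hb0⟩,
    P.divX.eval₂ j a * b⁻¹, ⟨_, hdm, b, hb, hb1, by
      rw [mul_assoc, inv_mul_cancel₀ hb0, mul_one]⟩, ?_⟩
  have h3 : z = x * b⁻¹ := by
    rw [← hxb, mul_assoc, mul_inv_cancel₀ hb0, mul_one]
  rw [h3, hPx, hd]
  ring

theorem unit_of (A1 : Subring K1) (hA1 : A1 ≤ (V.comap j).toSubring) (a : K)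
    (ha : V.valuation a < 1) (ε : K1[X]) (hε : ∀ n, ε.coeff n ∈ A1) (h0 : ε.coeff 0 = 0) :
    1 + ε.eval₂ j a ∈ locV V (Subring.closure (((A1.map j : Subring K) : Set K) ∪ {a})) ∧
      V.valuation (1 + ε.eval₂ j a) = 1 := by
  refine ⟨le_locV V _ (add_mem (one_mem _) (DE_eval_mem j A1 a ε hε)), ?_⟩
  have h1 : V.valuation (ε.eval₂ j a) < 1 := by
    rw [DE_divX, h0, map_zero, add_zero, map_mul]
    exact (mul_le_of_le_one_left'
      (DE_le_one j V hA1 ha (DE_eval_mem j A1 a _ (DE_divX_mem A1 ε hε)))).trans_lt ha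
  have h2 := Valuation.map_add_eq_of_lt_left V.valuation (x := 1) (y := ε.eval₂ j a)
    (by rw [map_one]; exact h1)
  rw [h2, map_one]

theorem DE_loc {A1 : Subring K1} (hloc : locV (V.comap j) A1 = A1) :
    locV V (A1.map j) = A1.map j := by
  rw [C2_locV_map, hloc]

theorem DE_dim (A1 : Subring K1) : ringKrullDim A1 = ringKrullDim (A1.map j : Subring K) :=
  ringKrullDim_eq_of_ringEquiv (A1.equivMapOfInjective j j.injective)

theorem DE_noe (A1 : Subring K1) [IsNoetherianRing A1] :
    IsNoetherianRing (A1.map j : Subring K) :=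
  isNoetherianRing_of_ringEquiv _ (A1.equivMapOfInjective j j.injective)

theorem dim_tr (A1 : Subring K1) (hA1 : A1 ≤ (V.comap j).toSubring)
    (hloc : locV (V.comap j) A1 = A1) [IsNoetherianRing A1] (a : K) (ha : V.valuation a < 1)
    (htr : ∀ P : K1[X], P.eval₂ j a = 0 → P = 0) :
    ringKrullDim A1 + 1 ≤ ringKrullDim
      (locV V (Subring.closure (((A1.map j : Subring K) : Set K) ∪ {a}))) := by
  have := DE_noe j A1
  rw [DE_dim j A1]
  refine DE_tr V (DE_map_le j V hA1) (DE_loc j V hloc) a ha ?_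
  intro p hp
  let e := A1.equivMapOfInjective j j.injective
  let q : A1[X] := p.map (e.symm : (A1.map j : Subring K) →+* A1)
  have hcomp : ∀ x : (A1.map j : Subring K), j ((e.symm x : A1) : K1) = (x : K) := by
    intro x
    have h1 := Subring.coe_equivMapOfInjective_apply A1 j j.injective (e.symm x)
    rw [← h1]
    exact congrArg Subtype.val (e.apply_symm_apply x)
  have h1 : (q.map A1.subtype).eval₂ j a = 0 := by
    rw [eval₂_map, eval₂_map, ← hp]
    congr 1
    ext x
    exact hcomp x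
  have h2 := htr _ h1
  ext n
  have h3 := congrArg (fun P : K1[X] => j (P.coeff n)) h2
  simp only [q, coeff_map, coeff_zero, map_zero] at h3
  rw [← hcomp]
  exact h3

theorem dim_et (A1 : Subring K1) (hA1 : A1 ≤ (V.comap j).toSubring)
    (hloc : locV (V.comap j) A1 = A1) [IsNoetherianRing A1] {n : ℕ} (w : Fin n → K1)
    (hw : ∀ i, w i ∈ A1 ∧ V.valuation (j (w i)) < 1)
    (hgen : ∀ z ∈ A1, V.valuation (j z) < 1 →
      ∃ c : Fin n → K1, (∀ i, c i ∈ A1) ∧ z = ∑ i, c i * w i)
    (hdim : ((n : ℕ) : WithBot ℕ∞) ≤ ringKrullDim A1) (a : K) (ha : V.valuation a < 1)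
    (ε : K1[X]) (hε : ∀ n, ε.coeff n ∈ A1 ∧ V.valuation (j (ε.coeff n)) < 1)
    (h0 : a + ε.eval₂ j a = 0) :
    (∃ c : Fin n → K, (∀ i, c i ∈
      locV V (Subring.closure (((A1.map j : Subring K) : Set K) ∪ {a}))) ∧
      a = ∑ i, c i * j (w i)) ∧
    ((n : ℕ) : WithBot ℕ∞) ≤ ringKrullDim
      (locV V (Subring.closure (((A1.map j : Subring K) : Set K) ∪ {a}))) := by
  constructor
  · have h1 : ∀ k, ∃ c : Fin n → K1, (∀ i, c i ∈ A1) ∧ ε.coeff k = ∑ i, c i * w i :=
      fun k => hgen _ (hε k).1 (hε k).2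
    choose c hc hcs using h1
    refine ⟨fun i => - ∑ k ∈ Finset.range (ε.natDegree + 1), j (c k i) * a ^ k, fun i => ?_, ?_⟩
    · apply le_locV
      refine neg_mem (sum_mem fun k _ => mul_mem ?_ (pow_mem ?_ k))
      · exact Subring.subset_closure (Or.inl ⟨_, hc k i, rfl⟩)
      · exact Subring.subset_closure (Or.inr (Set.mem_singleton a))
    · have h2 : a = - ε.eval₂ j a := by
        rw [eq_neg_iff_add_eq_zero]
        exact h0
      have h3 : ε.eval₂ j a = ∑ k ∈ Finset.range (ε.natDegree + 1),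
          ∑ i, j (c k i) * a ^ k * j (w i) := by
        rw [eval₂_eq_sum_range]
        refine Finset.sum_congr rfl fun k _ => ?_
        rw [hcs k, map_sum, Finset.sum_mul]
        refine Finset.sum_congr rfl fun i _ => ?_
        rw [map_mul]
        ring
      rw [h3, Finset.sum_comm, ← Finset.sum_neg_distrib] at h2
      refine h2.trans (Finset.sum_congr rfl fun i _ => ?_)
      rw [neg_mul, Finset.sum_mul]
  · have := DE_noe j A1
    rw [DE_dim j A1] at hdim
    have hco : ((ε.map j).coeffs : Set K) ⊆ ((A1.map j : Subring K) : Set K) := by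
      intro x hx
      obtain ⟨k, _, rfl⟩ := mem_coeffs_iff.1 hx
      rw [coeff_map]
      exact ⟨_, (hε k).1, rfl⟩
    refine DE_reg V (DE_map_le j V hA1) (DE_loc j V hloc)
      (fun i => (⟨j (w i), ⟨w i, (hw i).1, rfl⟩⟩ : (A1.map j : Subring K))) (fun i => (hw i).2) ?_
      hdim a ha ((ε.map j).toSubring (A1.map j) hco) ?_ ?_
    · rintro ⟨_, y, hy, rfl⟩ hz
      obtain ⟨c, hc, hcs⟩ := hgen y hy hz
      have h1 : (⟨j y, ⟨y, hy, rfl⟩⟩ : (A1.map j : Subring K)) =
          ∑ i, (⟨j (c i), ⟨c i, hc i, rfl⟩⟩ : (A1.map j : Subring K)) *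
            ⟨j (w i), ⟨w i, (hw i).1, rfl⟩⟩ := by
        apply Subtype.ext
        rw [AddSubmonoidClass.coe_finsetSum]
        show j y = ∑ i, j (c i) * j (w i)
        rw [hcs, map_sum]
        exact Finset.sum_congr rfl fun i _ => map_mul _ _ _
      rw [h1]
      exact Ideal.sum_mem _ fun i _ => Ideal.mul_mem_left _ _ (Ideal.subset_span ⟨i, rfl⟩)
    · intro k
      rw [coeff_toSubring, coeff_map]
      exact (hε k).2
    · rw [← h0]
      congr 1
      rw [← eval_map, map_toSubring, eval_map]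

end Pool.Agent.Lib.TE
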