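import Mathlib.Algebra.Polynomial.Eval.Coeff
import Mathlib.Algebra.Polynomial.Eval.Irreducible
import Mathlib.FieldTheory.Minpoly.Field
import Mathlib.RingTheory.Polynomial.Basic

/-!
# Module FgE: the field `K1` is finitely generated if `K = K1(t)` is
PROOF. Let `E` be the subfield of `K1` generated by the image of `Rb` and a finite set `G1`: the coefficients of polynomials `q_g, d_g` with `g * d_g(t) = q_g(t)`, `g ∈ G`, and, if `t` is algebraic over
`K1`, the coefficients of a nonzero polynomial `f` of minimal degree with `f(t) = 0`.  All elements of `G` are in the field generated by `j E` and `t`, so `K` is this field: every `z ∈ K` satisfies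
`z * d(t) = q(t)`, `d(t) ≠ 0`, with `q, d` polynomials with coefficients in `E` (the set of these `z` is a subfield).
Claim: `E = K1`.  Let `z ∈ K1`.  If `t` is transcendental: `j z * d(t) = q(t)` implies `C z * d = q`, so `z ∈ E` (compare a nonzero coefficient of `d`).
If `t` is algebraic, `E[t]` is a field (`f` is of minimal degree over `K1`, a fortiori over `E`), so `j z = q(t)` with `q` over `E` of degree less than the degree of `f` (division by `f`), so `q - C z`
vanishes at `t` and has smaller degree than `f`: `q = C z`, `z ∈ E`.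
The elements of the subfield `E` are fractions of elements of the ring generated by `φ1.range` and `G1` (`Subfield.mem_closure_iff` or closure induction).
-/

namespace Pool.Agent.Lib.TE

open Polynomial

private theorem lift_eval {K1 K : Type} [Field K1] [Field K] (j : K1 →+* K) (t : K)
    (E : Subfield K1) (p : K1[X]) (hp : ∀ n, p.coeff n ∈ E) :
    ∃ q : E[X], q.map E.subtype = p ∧ q.eval₂ (j.comp E.subtype) t = p.eval₂ j t := by
  have h1 : p ∈ Polynomial.lifts E.subtype := by
    rw [Polynomial.lifts_iff_coeff_lifts]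
    intro n
    exact ⟨⟨p.coeff n, hp n⟩, rfl⟩
  obtain ⟨q, hq⟩ := (Polynomial.mem_lifts _).mp h1
  refine ⟨q, hq, ?_⟩
  rw [← hq, Polynomial.eval₂_map]

private theorem mem_sub {K1 K : Type} [Field K1] [Field K] (j : K1 →+* K) (t : K)
    (E : Subfield K1)
    (hmin : ∀ f : K1[X], f ≠ 0 → f.eval₂ j t = 0 → ∃ g : E[X], Irreducible g ∧ g.Monic ∧
      g.eval₂ (j.comp E.subtype) t = 0 ∧
      ∀ h : K1[X], h.eval₂ j t = 0 → h.degree < g.degree → h = 0)
    (q w : E[X]) (hw : w.eval₂ (j.comp E.subtype) t ≠ 0) (z : K1)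
    (hz : j z * w.eval₂ (j.comp E.subtype) t = q.eval₂ (j.comp E.subtype) t) : z ∈ E := by
  by_cases hex : ∃ f : K1[X], f ≠ 0 ∧ f.eval₂ j t = 0
  · obtain ⟨f, hf0, hf⟩ := hex
    obtain ⟨g, hgi, hgm, hg, hdeg⟩ := hmin f hf0 hf
    have hnd : ¬ g ∣ w := by
      rintro ⟨c, rfl⟩
      rw [Polynomial.eval₂_mul, hg, zero_mul] at hw
      exact hw rfl
    obtain ⟨v, u, huv⟩ : IsCoprime g w := (hgi.coprime_iff_not_dvd).mpr hnd
    have h1 : u.eval₂ (j.comp E.subtype) t * w.eval₂ (j.comp E.subtype) t = 1 := by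
      have := congrArg (Polynomial.eval₂ (j.comp E.subtype) t) huv
      rw [Polynomial.eval₂_add, Polynomial.eval₂_mul, Polynomial.eval₂_mul, hg, mul_zero,
        zero_add, Polynomial.eval₂_one] at this
      exact this
    have h2 : j z = (q * u).eval₂ (j.comp E.subtype) t := by
      rw [Polynomial.eval₂_mul, ← hz, mul_assoc, mul_comm (w.eval₂ _ _), h1, mul_one]
    have h3 : ((q * u) %ₘ g).eval₂ (j.comp E.subtype) t = j z := by
      rw [h2]
      conv_rhs => rw [← Polynomial.modByMonic_add_div (q * u) g]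
      rw [Polynomial.eval₂_add, Polynomial.eval₂_mul, hg, zero_mul, add_zero]
    have h4 : ((q * u) %ₘ g).map E.subtype - Polynomial.C z = 0 := by
      apply hdeg
      · rw [Polynomial.eval₂_sub, Polynomial.eval₂_map, h3, Polynomial.eval₂_C, sub_self]
      · refine (Polynomial.degree_sub_le _ _).trans_lt (max_lt ?_ ?_)
        · rw [Polynomial.degree_map]
          exact Polynomial.degree_modByMonic_lt _ hgm
        · exact Polynomial.degree_C_le.trans_lt (Polynomial.degree_pos_of_irreducible hgi)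
    have h5 := congrArg (fun p : K1[X] => p.coeff 0) h4
    simp only [Polynomial.coeff_sub, Polynomial.coeff_map, Polynomial.coeff_C_zero,
      Polynomial.coeff_zero, sub_eq_zero] at h5
    rw [← h5]
    exact ((q * u %ₘ g).coeff 0).2
  · push Not at hex
    have h1 : Polynomial.C z * w.map E.subtype - q.map E.subtype = 0 := by
      by_contra h
      apply hex _ h
      rw [Polynomial.eval₂_sub, Polynomial.eval₂_mul, Polynomial.eval₂_map,
        Polynomial.eval₂_map, Polynomial.eval₂_C, hz, sub_self]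
    have hw0 : w ≠ 0 := by
      rintro rfl
      exact hw (by rw [Polynomial.eval₂_zero])
    have h2 : w.leadingCoeff ≠ 0 := Polynomial.leadingCoeff_ne_zero.mpr hw0
    have h3 := congrArg (fun p : K1[X] => p.coeff w.natDegree) h1
    simp only [Polynomial.coeff_sub, Polynomial.coeff_C_mul, Polynomial.coeff_map,
      Polynomial.coeff_natDegree, Polynomial.coeff_zero, sub_eq_zero] at h3
    have h4 : (E.subtype w.leadingCoeff) ≠ 0 := fun h => h2 (E.subtype_injective (by
      rw [h, map_zero]))
    have h5 : z = E.subtype (q.coeff w.natDegree) / E.subtype w.leadingCoeff := by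
      rw [eq_div_iff h4]
      exact h3
    rw [h5]
    exact E.div_mem (q.coeff w.natDegree).2 (w.leadingCoeff).2

theorem fg_sub {Rb K1 K : Type} [CommRing Rb] [Field K1] [Field K] (φ1 : Rb →+* K1)
    (j : K1 →+* K) (t : K)
    (hgen : ∀ z : K, ∃ q d : K1[X], d.eval₂ j t ≠ 0 ∧ z * d.eval₂ j t = q.eval₂ j t)
    (G : Finset K)
    (hG : ∀ z : K, ∃ a ∈ Subring.closure (((j.comp φ1).range : Set K) ∪ (G : Set K)),
      ∃ b ∈ Subring.closure (((j.comp φ1).range : Set K) ∪ (G : Set K)), b ≠ 0 ∧ z * b = a) :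
    ∃ G1 : Finset K1, ∀ z : K1,
      ∃ a ∈ Subring.closure ((φ1.range : Set K1) ∪ (G1 : Set K1)),
      ∃ b ∈ Subring.closure ((φ1.range : Set K1) ∪ (G1 : Set K1)), b ≠ 0 ∧ z * b = a := by
  classical
  choose q d hd hqd using hgen
  obtain ⟨f, hf⟩ : ∃ f : K1[X], (∀ p : K1[X], p ≠ 0 → p.eval₂ j t = 0 →
      Irreducible f ∧ f.Monic ∧ f.eval₂ j t = 0 ∧
      ∀ h : K1[X], h.eval₂ j t = 0 → h.degree < f.degree → h = 0) := by
    let _ : Algebra K1 K := j.toAlgebra
    refine ⟨minpoly K1 t, fun p hp0 hp => ?_⟩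
    have halg : IsIntegral K1 t := by
      have : IsAlgebraic K1 t := ⟨p, hp0, hp⟩
      exact this.isIntegral
    refine ⟨minpoly.irreducible halg, minpoly.monic halg, minpoly.aeval K1 t,
      fun h hh hlt => ?_⟩
    by_contra hne
    exact absurd (minpoly.degree_le_of_ne_zero K1 t hne hh) (not_le.mpr hlt)
  obtain ⟨G1, hG1⟩ : ∃ G1 : Finset K1, G1 = (G.biUnion fun g => (q g).coeffs ∪ (d g).coeffs) ∪
    f.coeffs := ⟨_, rfl⟩
  obtain ⟨E, hE⟩ : ∃ E : Subfield K1, E = Subfield.closure ((φ1.range : Set K1) ∪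
    (G1 : Set K1)) := ⟨_, rfl⟩
  have hEsub : (φ1.range : Set K1) ∪ (G1 : Set K1) ⊆ (E : Set K1) := by
    rw [hE]
    exact Subfield.subset_closure
  have hcoef : ∀ p : K1[X], p.coeffs ⊆ G1 → ∀ n, p.coeff n ∈ E := by
    intro p hp n
    by_cases h0 : p.coeff n = 0
    · rw [h0]
      exact E.zero_mem
    · exact hEsub (Or.inr (hp (Polynomial.coeff_mem_coeffs h0)))
  have hcq : ∀ g ∈ G, (q g).coeffs ⊆ G1 := by
    intro g hg x hx
    rw [hG1]
    exact Finset.mem_union_left _ (Finset.mem_biUnion.mpr ⟨g, hg, Finset.mem_union_left _ hx⟩)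
  have hcd : ∀ g ∈ G, (d g).coeffs ⊆ G1 := by
    intro g hg x hx
    rw [hG1]
    exact Finset.mem_union_left _ (Finset.mem_biUnion.mpr ⟨g, hg, Finset.mem_union_right _ hx⟩)
  have hcf : f.coeffs ⊆ G1 := by
    intro x hx
    rw [hG1]
    exact Finset.mem_union_right _ hx
  have hmin : ∀ p : K1[X], p ≠ 0 → p.eval₂ j t = 0 → ∃ g : E[X], Irreducible g ∧ g.Monic ∧
      g.eval₂ (j.comp E.subtype) t = 0 ∧
      ∀ h : K1[X], h.eval₂ j t = 0 → h.degree < g.degree → h = 0 := by
    intro p hp0 hp
    obtain ⟨h1, h2, h3, h4⟩ := hf p hp0 hp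
    obtain ⟨g, hg1, hg2⟩ := lift_eval j t E f (hcoef f hcf)
    have hgm : g.Monic := by
      apply Polynomial.monic_of_injective E.subtype_injective
      rw [hg1]
      exact h2
    refine ⟨g, Polynomial.Monic.irreducible_of_irreducible_map E.subtype g hgm (hg1 ▸ h1), hgm,
      hg2.trans h3, ?_⟩
    intro h hh hlt
    apply h4 h hh
    rw [← hg1, Polynomial.degree_map]
    exact hlt
  have hmem : ∀ z : K1, z ∈ E := by
    intro z
    obtain ⟨S, hS⟩ : ∃ S : Subring K, S = (Polynomial.eval₂RingHom (j.comp E.subtype) t).range :=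
      ⟨_, rfl⟩
    have hmemS : ∀ p : K1[X], (∀ n, p.coeff n ∈ E) → p.eval₂ j t ∈ S := by
      intro p hp
      obtain ⟨g, hg1, hg2⟩ := lift_eval j t E p hp
      rw [hS, ← hg2]
      exact ⟨g, rfl⟩
    have hcl : Subring.closure (((j.comp φ1).range : Set K) ∪ (G : Set K)) ≤
        (Subfield.closure (S : Set K)).toSubring := by
      rw [Subring.closure_le]
      rintro x (hx | hx)
      · obtain ⟨r, rfl⟩ := hx
        apply Subfield.subset_closure
        have h1 := hmemS (Polynomial.C (φ1 r)) (by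
          intro n
          rw [Polynomial.coeff_C]
          split_ifs
          · exact hEsub (Or.inl ⟨r, rfl⟩)
          · exact E.zero_mem)
        rw [Polynomial.eval₂_C] at h1
        exact h1
      · have h1 : x = (q x).eval₂ j t / (d x).eval₂ j t := by
          rw [eq_div_iff (hd x)]
          exact hqd x
        change x ∈ Subfield.closure (S : Set K)
        rw [h1]
        exact Subfield.div_mem _
          (Subfield.subset_closure (hmemS _ (hcoef _ (hcq x hx))))
          (Subfield.subset_closure (hmemS _ (hcoef _ (hcd x hx))))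
    have hjz : j z ∈ Subfield.closure (S : Set K) := by
      obtain ⟨a, ha, b, hb, hb0, hab⟩ := hG (j z)
      have h1 : j z = a / b := by
        rw [eq_div_iff hb0]
        exact hab
      rw [h1]
      exact Subfield.div_mem _ (hcl ha) (hcl hb)
    rw [Subfield.mem_closure_iff] at hjz
    obtain ⟨y, hy, w, hw, hyw⟩ := hjz
    rw [Subring.closure_eq] at hy hw
    rw [hS] at hy hw
    obtain ⟨y', rfl⟩ := hy
    obtain ⟨w', rfl⟩ := hw
    by_cases hw0 : w'.eval₂ (j.comp E.subtype) t = 0
    · have h1 : j z = 0 := by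
        rw [← hyw]
        change _ / w'.eval₂ (j.comp E.subtype) t = 0
        rw [hw0, div_zero]
      have h2 : z = 0 := by
        apply j.injective
        rw [h1, map_zero]
      rw [h2]
      exact E.zero_mem
    · refine mem_sub j t E hmin y' w' hw0 z ?_
      rw [← hyw]
      change _ / w'.eval₂ (j.comp E.subtype) t * _ = _
      rw [div_mul_cancel₀ _ hw0]
      rfl
  refine ⟨G1, fun z => ?_⟩
  have hz := hmem z
  rw [hE, Subfield.mem_closure_iff] at hz
  obtain ⟨a, ha, b, hb, hab⟩ := hz
  by_cases hb0 : b = 0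
  · refine ⟨0, Subring.zero_mem _, 1, Subring.one_mem _, one_ne_zero, ?_⟩
    rw [← hab, hb0, div_zero, zero_mul]
  · refine ⟨a, ha, b, hb, hb0, ?_⟩
    rw [← hab, div_mul_cancel₀ _ hb0]

end Pool.Agent.Lib.TE
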