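import Pool.Agent.Lib.TE.DimE
import Pool.Agent.Lib.MP_3029eb_ag.AbhE0

/-!
# Module GoE: good parameters of `A' = locV V (closure (j A1 ∪ {a}))`
PROOF. `IndV V (j ∘ x)`: `V.valuation (mon (j ∘ x) δ) = 1 ↔ (V.comap j).valuation (mon x δ) = 1` (comap lemmas: `TC.I3_comap_lt_one`, `I3_comap_le` in `TC/I3.lean`, or directly `mem`/`inv_mem`).  `gen`: `gen_E`: `z = j c * u + d * a`, `c ∈ A1` of value
less than one is a combination of the `x i, w i` (`hG.gen`).  In the second case `a` is a combination of the `j (w' i)` with `w' := Fin.append x w` (`dim_et`, `n := r + h`).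
`dim`: `dim_tr`, `dim_et`, `hG.dim`.
-/

namespace Pool.Agent.Lib.TE

open Polynomial Pool.Agent.Lib.MP_3029eb_ag Pool.Agent.Lib.MP_3029eb_ag.Abh IsLocalRing

variable {K1 K : Type} [Field K1] [Field K] (j : K1 →+* K) (V : ValuationSubring K)

theorem GoE_one_iff (z : K1) :
    (V.comap j).valuation z = 1 ↔ V.valuation (j z) = 1 := by
  rw [C1_val_one_iff, C1_val_one_iff]
  simp only [ValuationSubring.mem_comap, map_inv₀, ne_eq, map_eq_zero]

theorem GoE_lt_iff (z : K1) :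
    (V.comap j).valuation z < 1 ↔ V.valuation (j z) < 1 := by
  rw [lt_iff_le_and_ne, lt_iff_le_and_ne, ValuationSubring.valuation_le_one_iff,
    ValuationSubring.valuation_le_one_iff, ValuationSubring.mem_comap, ne_eq, ne_eq,
    GoE_one_iff]

theorem GoE_mon {r : ℕ} (x : Fin r → K1) (δ : Fin r → ℤ) :
    j (mon x δ) = mon (fun i => j (x i)) δ := by
  unfold Abh.mon
  rw [map_prod]
  exact Finset.prod_congr rfl fun i _ => map_zpow₀ j _ _

theorem GoE_monN {r : ℕ} (x : Fin r → K1) (β : Fin r → ℕ) :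
    j (monN x β) = monN (fun i => j (x i)) β := by
  unfold Abh.monN
  rw [map_prod]
  exact Finset.prod_congr rfl fun i _ => map_pow j _ _

theorem GoE_indV {r : ℕ} {x : Fin r → K1} (h : IndV (V.comap j) x) :
    IndV V (fun i => j (x i)) :=
  ⟨fun i => (map_ne_zero j).2 (h.ne i), fun δ hδ =>
    h.indep δ ((GoE_one_iff j V _).2 (by rw [GoE_mon]; exact hδ))⟩

theorem GoE_memj (A1 : Subring K1) (a : K) {z : K1} (hz : z ∈ A1) :
    j z ∈ locV V (Subring.closure (((A1.map j : Subring K) : Set K) ∪ {a})) :=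
  le_locV _ _ (Subring.subset_closure (Or.inl ⟨z, hz, rfl⟩))

theorem GoE_mema (A1 : Subring K1) (a : K) :
    a ∈ locV V (Subring.closure (((A1.map j : Subring K) : Set K) ∪ {a})) :=
  le_locV _ _ (Subring.subset_closure (Or.inr rfl))

theorem monV_map {A1 : Subring K1} {A' : Subring K} (h : ∀ z ∈ A1, j z ∈ A') {r : ℕ}
    {x : Fin r → K1} {z : K1} (hz : MonV (V.comap j) A1 x z) :
    MonV V A' (fun i => j (x i)) (j z) := by
  obtain ⟨w, hw, hw1, β, rfl⟩ := hz
  exact ⟨j w, h w hw, (GoE_one_iff j V w).1 hw1, β, by rw [map_mul, GoE_monN]⟩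

theorem good_tr (A : Subring K) (R1 A1 : Subring K1) (hA1 : A1 ≤ (V.comap j).toSubring)
    (hloc : locV (V.comap j) A1 = A1) [IsNoetherianRing A1] {r h : ℕ} (x : Fin r → K1)
    (w : Fin h → K1) (hG : TC.GoodPar3 (V.comap j) R1 A1 x w) (a : K) (ha : V.valuation a < 1)
    (htr : ∀ P : K1[X], P.eval₂ j a = 0 → P = 0) (A' : Subring K)
    (hA' : A' = locV V (Subring.closure (((A1.map j : Subring K) : Set K) ∪ {a})))
    (hden : ∀ z ∈ A', Den V A A' (fun i => j (x i)) z) :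
    TC.GoodPar3 V A A' (fun i => j (x i)) (Fin.cons a (fun i => j (w i)) : Fin (h + 1) → K) := by
  subst hA'
  refine ⟨GoE_indV j V hG.ind, fun i => GoE_memj j V A1 a (hG.mem i),
    fun i => (GoE_lt_iff j V _).1 (hG.lt i),
    Fin.cases (GoE_mema j V A1 a) fun i => GoE_memj j V A1 a (hG.wmem i),
    Fin.cases ha fun i => (GoE_lt_iff j V _).1 (hG.wlt i), ?_, ?_, hden⟩
  · intro z hz h1
    obtain ⟨c, hc, hc1, u, hu, d, hd, hzz⟩ := gen_E j V A1 hA1 a ha hz h1
    obtain ⟨c1, d1, hc1m, hd1m, hcc⟩ := hG.gen c hc ((GoE_lt_iff j V c).2 hc1)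
    refine ⟨fun i => u * j (c1 i), Fin.cons d (fun i => u * j (d1 i)),
      fun i => mul_mem hu (GoE_memj j V A1 a (hc1m i)),
      Fin.cases hd fun i => mul_mem hu (GoE_memj j V A1 a (hd1m i)), ?_⟩
    rw [hzz, hcc, Fin.sum_univ_succ]
    simp only [Fin.cons_zero, Fin.cons_succ, map_add, map_sum, map_mul]
    rw [add_mul, Finset.sum_mul, Finset.sum_mul]
    have e1 : ∀ i, j (c1 i) * j (x i) * u = u * j (c1 i) * j (x i) := fun i => by ring
    have e2 : ∀ i, j (d1 i) * j (w i) * u = u * j (d1 i) * j (w i) := fun i => by ring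
    rw [Finset.sum_congr rfl fun i _ => e1 i, Finset.sum_congr rfl fun i _ => e2 i]
    ring
  · have h1 := dim_tr j V A1 hA1 hloc a ha htr
    have h2 : ((r + (h + 1) : ℕ) : WithBot ℕ∞) = ((r + h : ℕ) : WithBot ℕ∞) + 1 := by
      push_cast
      ring
    rw [h2]
    exact (add_le_add hG.dim le_rfl).trans h1

theorem good_et (A : Subring K) (R1 A1 : Subring K1) (hA1 : A1 ≤ (V.comap j).toSubring)
    (hloc : locV (V.comap j) A1 = A1) [IsNoetherianRing A1] {r h : ℕ} (x : Fin r → K1)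
    (w : Fin h → K1) (hG : TC.GoodPar3 (V.comap j) R1 A1 x w) (a : K) (ha : V.valuation a < 1)
    (ε : K1[X]) (hε : ∀ n, ε.coeff n ∈ A1 ∧ V.valuation (j (ε.coeff n)) < 1)
    (h0 : a + ε.eval₂ j a = 0) (A' : Subring K)
    (hA' : A' = locV V (Subring.closure (((A1.map j : Subring K) : Set K) ∪ {a})))
    (hden : ∀ z ∈ A', Den V A A' (fun i => j (x i)) z) :
    TC.GoodPar3 V A A' (fun i => j (x i)) (fun i => j (w i)) := by
  subst hA'
  have hw : ∀ i : Fin (r + h), Fin.append x w i ∈ A1 ∧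
      V.valuation (j (Fin.append x w i)) < 1 := by
    refine Fin.addCases (fun i => ?_) (fun i => ?_)
    · rw [Fin.append_left]
      exact ⟨hG.mem i, (GoE_lt_iff j V _).1 (hG.lt i)⟩
    · rw [Fin.append_right]
      exact ⟨hG.wmem i, (GoE_lt_iff j V _).1 (hG.wlt i)⟩
  have hgen : ∀ z ∈ A1, V.valuation (j z) < 1 →
      ∃ c : Fin (r + h) → K1, (∀ i, c i ∈ A1) ∧ z = ∑ i, c i * Fin.append x w i := by
    intro z hz h1
    obtain ⟨c, d, hc, hd, hzz⟩ := hG.gen z hz ((GoE_lt_iff j V z).2 h1)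
    have hm : ∀ i : Fin (r + h), Fin.append c d i ∈ A1 := by
      refine Fin.addCases (fun i => ?_) (fun i => ?_)
      · rw [Fin.append_left]; exact hc i
      · rw [Fin.append_right]; exact hd i
    refine ⟨Fin.append c d, hm, ?_⟩
    rw [Fin.sum_univ_add]
    simp only [Fin.append_left, Fin.append_right]
    exact hzz
  obtain ⟨⟨e, he, hae⟩, hdim⟩ :=
    dim_et j V A1 hA1 hloc (Fin.append x w) hw hgen hG.dim a ha ε hε h0
  refine ⟨GoE_indV j V hG.ind, fun i => GoE_memj j V A1 a (hG.mem i),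
    fun i => (GoE_lt_iff j V _).1 (hG.lt i), fun i => GoE_memj j V A1 a (hG.wmem i),
    fun i => (GoE_lt_iff j V _).1 (hG.wlt i), ?_, hdim, hden⟩
  intro z hz h1
  obtain ⟨c, hc, hc1, u, hu, d, hd, hzz⟩ := gen_E j V A1 hA1 a ha hz h1
  obtain ⟨c1, d1, hc1m, hd1m, hcc⟩ := hG.gen c hc ((GoE_lt_iff j V c).2 hc1)
  refine ⟨fun i => u * j (c1 i) + d * e (Fin.castAdd h i),
    fun i => u * j (d1 i) + d * e (Fin.natAdd r i),
    fun i => add_mem (mul_mem hu (GoE_memj j V A1 a (hc1m i))) (mul_mem hd (he _)),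
    fun i => add_mem (mul_mem hu (GoE_memj j V A1 a (hd1m i))) (mul_mem hd (he _)), ?_⟩
  rw [Fin.sum_univ_add] at hae
  simp only [Fin.append_left, Fin.append_right] at hae
  have h2 : z = (∑ i, j (c1 i) * j (x i) + ∑ i, j (d1 i) * j (w i)) * u +
      d * (∑ i, e (Fin.castAdd h i) * j (x i) + ∑ i, e (Fin.natAdd r i) * j (w i)) := by
    rw [← hae, hzz, hcc]
    simp only [map_add, map_sum, map_mul]
  rw [h2]
  simp only [add_mul, mul_add, Finset.sum_mul, Finset.mul_sum, Finset.sum_add_distrib]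
  have e1 : ∀ i, j (c1 i) * j (x i) * u = u * j (c1 i) * j (x i) := fun i => by ring
  have e2 : ∀ i, j (d1 i) * j (w i) * u = u * j (d1 i) * j (w i) := fun i => by ring
  rw [Finset.sum_congr rfl fun i _ => e1 i, Finset.sum_congr rfl fun i _ => e2 i]
  simp only [mul_assoc]
  ring

end Pool.Agent.Lib.TE
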