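import Mathlib.RingTheory.Valuation.ValuationSubring
import Mathlib.Algebra.Polynomial.Derivative
import Mathlib.Algebra.Polynomial.Taylor

/-!
# Module ShB: the substitution `X ↦ b + π X` and approximation in a dense subfield
`j : K1 →+* K`, `V` a valuation ring of `K`; all inequalities are written with `V.valuation (j a)`.

PROOFS. `sh_bound`: induction on `q` (`Polynomial.induction_on'` or `sum` of monomials: `(b + π X) ^ n` has coefficients `choose n i * b ^ (n - i) * π ^ i`, natural numbers have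
value at most one; `M := ` a coefficient of largest value times `B ^ natDegree`, `1 ≤ V.valuation (j B)`).
`dense_val`: `z1` with `V.valuation (z - j z1) < V.valuation z` has the value of `z` (`Valuation.map_sub_eq_of_lt_...`, ultrametric).
`dense_close`: a polynomial function is continuous: `q(t) - q(b) = (t - b) * s`, value of `s` bounded by `M` (Taylor expansion of `q` at `b`, or `sh_bound` with `π := 1`: the coefficients of `sh b 1 q` are bounded and
`q(t) = ∑ coeff n (sh b 1 q) * (t - b) ^ n`, the term `n = 0` is `q(b)`).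
`choice_a`: PROOF. Choose `B` with `1 ≤ V(j B)`, `V t ≤ V(j B)` (`dense_val`), `M` a common bound (the product of the bounds `M_q`, made of value at least one) for `q ∈ Q`, and `π ≠ 0` with `V(j π) ≤ V(j c)`, `V(j π) ≤ 1`,
`V(j (M * π)) < V(q(t))` for all `q ∈ Q` (finitely many nonzero values; `dense_val`).  Then `b` with `V(t - j b) < V(j π)` and so small that `V(q(t) - j(q(b))) < V(q(t))` for all `q` (`dense_close`).  So
`V(j(q(b))) = V(q(t))` and for `1 ≤ n`: `V(coeff n) ≤ V(M * π ^ n) ≤ V(M * π) < V(q(b))`.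
`choice_b`: the same, with in addition `f(t) = 0`, `δ := f'(t) ≠ 0`: `π` also satisfies `V(j (M * π)) < V(δ)` (`M` also bounds `f`), and `b` also satisfies `V(j(f(b))) < V(j π) * V(δ)`,
`V(j(f'(b))) = V(δ)`.  `γ := π * f'(b)`, `ε := C γ⁻¹ * sh b π f - X`; its coefficients: `n = 0`: `f(b) / γ`; `n = 1`: `0`; `2 ≤ n`: `V(M * π ^ n) < V(π) * V(δ)`.
-/

namespace Pool.Agent.Lib.TE

open Polynomial

/-- `q(b + π X)` -/
noncomputable def sh {F : Type} [Field F] (b π : F) (q : F[X]) : F[X] := q.comp (C b + C π * X)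

variable {K1 K : Type} [Field K1] [Field K] (j : K1 →+* K) (V : ValuationSubring K)

theorem sh_eval₂ (b π : K1) (q : K1[X]) (a : K) :
    (sh b π q).eval₂ j a = q.eval₂ j (j b + j π * a) := by
  unfold sh
  rw [eval₂_comp]
  simp

theorem sh_coeff_zero {F : Type} [Field F] (b π : F) (q : F[X]) : (sh b π q).coeff 0 = q.eval b := by
  unfold sh
  rw [coeff_zero_eq_eval_zero, eval_comp]
  simp

theorem sh_coeff_one {F : Type} [Field F] (b π : F) (q : F[X]) :
    (sh b π q).coeff 1 = π * q.derivative.eval b := by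
  have h1 : (derivative (sh b π q)).coeff 0 = (sh b π q).coeff 1 := by
    rw [coeff_derivative]; simp
  rw [← h1]
  unfold sh
  rw [derivative_comp, coeff_zero_eq_eval_zero, eval_mul, eval_comp]
  simp

private theorem pow_bound (B : K1) (hB : 1 ≤ V.valuation (j B)) (m : ℕ) (b π : K1)
    (hb : V.valuation (j b) ≤ V.valuation (j B)) : ∀ n,
      V.valuation (j (((C b + C π * X : K1[X]) ^ m).coeff n)) ≤ V.valuation (j (B ^ m * π ^ n)) := by
  induction m with
  | zero =>
    intro n
    rcases Nat.eq_zero_or_pos n with rfl | hn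
    · simp
    · rw [pow_zero, coeff_one, if_neg (by omega)]
      simp
  | succ m ih =>
    intro n
    rw [pow_succ, mul_add, coeff_add, coeff_mul_C, ← mul_assoc, map_add]
    refine (Valuation.map_add _ _ _).trans (max_le ?_ ?_)
    · rw [map_mul, map_mul]
      calc V.valuation (j (((C b + C π * X : K1[X]) ^ m).coeff n)) * V.valuation (j b)
          ≤ V.valuation (j (B ^ m * π ^ n)) * V.valuation (j B) := mul_le_mul' (ih n) hb
        _ = V.valuation (j (B ^ (m + 1) * π ^ n)) := by
            simp only [map_mul, map_pow, pow_succ]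
            exact mul_right_comm _ _ _
    · rcases Nat.eq_zero_or_pos n with rfl | hn
      · rw [coeff_mul_X_zero]
        simp
      · obtain ⟨n, rfl⟩ := Nat.exists_eq_succ_of_ne_zero hn.ne'
        rw [Nat.succ_eq_add_one, coeff_mul_X, coeff_mul_C, map_mul, map_mul]
        calc V.valuation (j (((C b + C π * X : K1[X]) ^ m).coeff n)) * V.valuation (j π)
            ≤ V.valuation (j (B ^ m * π ^ n)) * V.valuation (j π) := mul_le_mul' (ih n) le_rfl
          _ = 1 * V.valuation (j (B ^ m * π ^ (n + 1))) := by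
              simp only [map_mul, map_pow, pow_succ, one_mul]
              exact mul_assoc _ _ _
          _ ≤ V.valuation (j B) * V.valuation (j (B ^ m * π ^ (n + 1))) := mul_le_mul' hB le_rfl
          _ = V.valuation (j (B ^ (m + 1) * π ^ (n + 1))) := by
              simp only [map_mul, map_pow, pow_succ]
              rw [← mul_assoc, mul_comm (V.valuation (j B))]

theorem sh_bound (q : K1[X]) (B : K1) (hB : 1 ≤ V.valuation (j B)) :
    ∃ M : K1, M ≠ 0 ∧ ∀ b π : K1, V.valuation (j b) ≤ V.valuation (j B) → ∀ n,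
      V.valuation (j ((sh b π q).coeff n)) ≤ V.valuation (j (M * π ^ n)) := by
  have hB0 : B ≠ 0 := by
    rintro rfl
    simp at hB
  induction q using Polynomial.induction_on' with
  | add p q hp hq =>
    obtain ⟨M1, hM1, h1⟩ := hp
    obtain ⟨M2, hM2, h2⟩ := hq
    have key : ∀ M : K1, V.valuation (j M1) ≤ V.valuation (j M) →
        V.valuation (j M2) ≤ V.valuation (j M) → ∀ b π : K1,
        V.valuation (j b) ≤ V.valuation (j B) → ∀ n,
        V.valuation (j ((sh b π (p + q)).coeff n)) ≤ V.valuation (j (M * π ^ n)) := by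
      intro M ha hb b π hbB n
      have : sh b π (p + q) = sh b π p + sh b π q := by unfold sh; exact add_comp
      rw [this, coeff_add, map_add]
      refine (Valuation.map_add _ _ _).trans (max_le ?_ ?_)
      · refine (h1 b π hbB n).trans ?_
        rw [map_mul, map_mul, map_mul, map_mul]
        exact mul_le_mul' ha le_rfl
      · refine (h2 b π hbB n).trans ?_
        rw [map_mul, map_mul, map_mul, map_mul]
        exact mul_le_mul' hb le_rfl
    rcases le_total (V.valuation (j M1)) (V.valuation (j M2)) with h | h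
    · exact ⟨M2, hM2, key M2 h le_rfl⟩
    · exact ⟨M1, hM1, key M1 le_rfl h⟩
  | monomial m a =>
    by_cases ha : a = 0
    · subst ha
      refine ⟨1, one_ne_zero, fun b π _ n => ?_⟩
      have : sh b π (monomial m (0 : K1)) = 0 := by unfold sh; simp
      rw [this]
      simp
    · refine ⟨a * B ^ m, mul_ne_zero ha (pow_ne_zero _ hB0), fun b π hb n => ?_⟩
      have : sh b π (monomial m a) = C a * (C b + C π * X) ^ m := by
        unfold sh
        rw [monomial_comp]
      rw [this, coeff_C_mul, map_mul, map_mul, mul_assoc, map_mul, map_mul]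
      exact mul_le_mul' le_rfl (pow_bound j V B hB m b π hb n)

/-- `j K1` is dense in `K` -/
def Dns (j : K1 →+* K) (V : ValuationSubring K) : Prop :=
  ∀ z a : K, a ≠ 0 → ∃ z1 : K1, V.valuation (z - j z1) < V.valuation a

variable {j V}

private theorem val_eq_of_close {z w : K} (h : V.valuation (z - w) < V.valuation z) :
    V.valuation w = V.valuation z := by
  have h1 : w = z - (z - w) := by ring
  rw [h1]
  exact Valuation.map_sub_eq_of_lt_left _ h

theorem dense_val (h : Dns j V) {z : K} (hz : z ≠ 0) :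
    ∃ z1 : K1, z1 ≠ 0 ∧ V.valuation (j z1) = V.valuation z := by
  obtain ⟨z1, h1⟩ := h z z hz
  have h2 := val_eq_of_close h1
  refine ⟨z1, ?_, h2⟩
  rintro rfl
  rw [map_zero, map_zero] at h2
  exact hz ((Valuation.zero_iff _).1 h2.symm)

private theorem exists_B (h : Dns j V) (t : K) :
    ∃ B : K1, 1 ≤ V.valuation (j B) ∧ V.valuation t ≤ V.valuation (j B) := by
  rcases le_total (V.valuation t) 1 with ht | ht
  · exact ⟨1, by simp, by simpa using ht⟩
  · have ht0 : t ≠ 0 := by
      rintro rfl
      simp at ht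
    obtain ⟨B, -, hB⟩ := dense_val h ht0
    exact ⟨B, by rw [hB]; exact ht, by rw [hB]⟩

theorem dense_close (h : Dns j V) (t : K) (q : K1[X]) (c : K) (hc : c ≠ 0) :
    ∃ d : K, d ≠ 0 ∧ ∀ b : K1, V.valuation (t - j b) < V.valuation d →
      V.valuation (q.eval₂ j t - j (q.eval b)) < V.valuation c := by
  obtain ⟨B, hB1, hBt⟩ := exists_B h t
  obtain ⟨M, hM, hMb⟩ := sh_bound j V q B hB1
  have hjM : j M ≠ 0 := (map_ne_zero j).2 hM
  -- the radius
  obtain ⟨d, hd0, hd1, hd2⟩ : ∃ d : K, d ≠ 0 ∧ V.valuation d ≤ 1 ∧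
      V.valuation d ≤ V.valuation (c / j M) := by
    rcases le_total (V.valuation (c / j M)) 1 with h1 | h1
    · exact ⟨c / j M, div_ne_zero hc hjM, h1, le_rfl⟩
    · exact ⟨1, one_ne_zero, by simp, by simpa using h1⟩
  refine ⟨d, hd0, fun b hb => ?_⟩
  have hb1 : V.valuation (t - j b) ≤ 1 := hb.le.trans hd1
  have hbB : V.valuation (j b) ≤ V.valuation (j B) := by
    have h1 : j b = t - (t - j b) := by ring
    rw [h1]
    exact (Valuation.map_sub _ _ _).trans (max_le hBt (hb1.trans hB1))
  have h2 : q.eval₂ j t = (sh b 1 q).eval₂ j (t - j b) := by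
    rw [sh_eval₂]
    congr 1
    rw [map_one]; ring
  rw [h2, eval₂_eq_sum_range, Finset.sum_range_succ', sh_coeff_zero, pow_zero, mul_one,
    add_sub_cancel_right]
  refine Valuation.map_sum_lt _ ((Valuation.ne_zero_iff _).2 hc) fun i _ => ?_
  rw [map_mul, map_pow]
  have h3 : V.valuation (j ((sh b 1 q).coeff (i + 1))) ≤ V.valuation (j M) := by
    have := hMb b 1 hbB (i + 1)
    simpa using this
  calc V.valuation (j ((sh b 1 q).coeff (i + 1))) * V.valuation (t - j b) ^ (i + 1)
      ≤ V.valuation (j M) * (1 * V.valuation (t - j b)) := by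
        refine mul_le_mul' h3 ?_
        rw [pow_succ]
        exact mul_le_mul' (pow_le_one' hb1 _) le_rfl
    _ = V.valuation (j M) * V.valuation (t - j b) := by rw [one_mul]
    _ < V.valuation (j M) * V.valuation d :=
        mul_lt_mul_of_pos_left hb (zero_lt_iff.2 ((Valuation.ne_zero_iff _).2 hjM))
    _ ≤ V.valuation (j M) * V.valuation (c / j M) := mul_le_mul' le_rfl hd2
    _ = V.valuation c := by rw [← map_mul, mul_div_cancel₀ _ hjM]

private theorem lowb (hV : ∃ z : K, z ≠ 0 ∧ V.valuation z < 1) (S : Finset K)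
    (hS : ∀ s ∈ S, s ≠ 0) : ∃ z : K, z ≠ 0 ∧ ∀ s ∈ S, V.valuation z < V.valuation s := by
  classical
  obtain ⟨u, hu0, hu1⟩ := hV
  induction S using Finset.induction_on with
  | empty => exact ⟨1, one_ne_zero, by simp⟩
  | insert s S _ ih =>
    obtain ⟨z, hz0, hz⟩ := ih fun s' hs' => hS s' (Finset.mem_insert_of_mem hs')
    have hs0 : s ≠ 0 := hS s (Finset.mem_insert_self _ _)
    rcases lt_or_ge (V.valuation z) (V.valuation s) with h1 | h1
    · refine ⟨z, hz0, fun s' hs' => ?_⟩
      rcases Finset.mem_insert.1 hs' with rfl | h2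
      · exact h1
      · exact hz s' h2
    · have h3 : V.valuation (s * u) < V.valuation s := by
        rw [map_mul]
        calc V.valuation s * V.valuation u < V.valuation s * 1 :=
              mul_lt_mul_of_pos_left hu1 (zero_lt_iff.2 ((Valuation.ne_zero_iff _).2 hs0))
          _ = V.valuation s := mul_one _
      refine ⟨s * u, mul_ne_zero hs0 hu0, fun s' hs' => ?_⟩
      rcases Finset.mem_insert.1 hs' with rfl | h2
      · exact h3
      · exact h3.trans (h1.trans_lt (hz s' h2))

private theorem common_M (B : K1) (hB : 1 ≤ V.valuation (j B)) (Q : Finset K1[X]) :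
    ∃ M : K1, M ≠ 0 ∧ ∀ q ∈ Q, ∀ b π : K1, V.valuation (j b) ≤ V.valuation (j B) → ∀ n,
      V.valuation (j ((sh b π q).coeff n)) ≤ V.valuation (j (M * π ^ n)) := by
  classical
  induction Q using Finset.induction_on with
  | empty => exact ⟨1, one_ne_zero, by simp⟩
  | insert q Q _ ih =>
    obtain ⟨M1, hM1, h1⟩ := ih
    obtain ⟨M2, hM2, h2⟩ := sh_bound j V q B hB
    have key : ∀ M : K1, V.valuation (j M1) ≤ V.valuation (j M) →
        V.valuation (j M2) ≤ V.valuation (j M) → ∀ q' ∈ insert q Q, ∀ b π : K1,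
        V.valuation (j b) ≤ V.valuation (j B) → ∀ n,
        V.valuation (j ((sh b π q').coeff n)) ≤ V.valuation (j (M * π ^ n)) := by
      intro M ha hb q' hq' b π hbB n
      rcases Finset.mem_insert.1 hq' with rfl | h3
      · refine (h2 b π hbB n).trans ?_
        rw [map_mul, map_mul, map_mul, map_mul]
        exact mul_le_mul' hb le_rfl
      · refine (h1 q' h3 b π hbB n).trans ?_
        rw [map_mul, map_mul, map_mul, map_mul]
        exact mul_le_mul' ha le_rfl
    rcases le_total (V.valuation (j M1)) (V.valuation (j M2)) with h | h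
    · exact ⟨M2, hM2, key M2 h le_rfl⟩
    · exact ⟨M1, hM1, key M1 le_rfl h⟩

private theorem choice_pre (hV : ∃ z : K, z ≠ 0 ∧ V.valuation z < 1) (h : Dns j V) (t : K)
    (Q : Finset K1[X]) (S : Finset K) (hS : ∀ s ∈ S, s ≠ 0) :
    ∃ M π : K1, M ≠ 0 ∧ π ≠ 0 ∧ V.valuation (j π) < 1 ∧
      (∀ s ∈ S, V.valuation (j π) < V.valuation s ∧ V.valuation (j (M * π)) < V.valuation s) ∧
      ∀ T : Finset K, (∀ s ∈ T, s ≠ 0) → ∃ b : K1, (∀ s ∈ T, V.valuation (t - j b) < V.valuation s) ∧
        (∀ q ∈ Q, ∀ s ∈ T, V.valuation (q.eval₂ j t - j (q.eval b)) < V.valuation s) ∧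
        ∀ q ∈ Q, ∀ n, V.valuation (j ((sh b π q).coeff n)) ≤ V.valuation (j (M * π ^ n)) := by
  classical
  obtain ⟨B, hB1, hBt⟩ := exists_B h t
  obtain ⟨M, hM, hMb⟩ := common_M B hB1 Q
  have hjM : j M ≠ 0 := (map_ne_zero j).2 hM
  obtain ⟨z, hz0, hz⟩ := lowb hV (insert 1 (S ∪ S.image fun s => s / j M)) (by
    intro s hs
    rcases Finset.mem_insert.1 hs with rfl | hs
    · exact one_ne_zero
    rcases Finset.mem_union.1 hs with hs | hs
    · exact hS s hs
    · obtain ⟨s', hs', rfl⟩ := Finset.mem_image.1 hs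
      exact div_ne_zero (hS s' hs') hjM)
  obtain ⟨π, hπ0, hπ⟩ := dense_val h hz0
  refine ⟨M, π, hM, hπ0, ?_, ?_, ?_⟩
  · rw [hπ]
    simpa using hz 1 (Finset.mem_insert_self _ _)
  · intro s hs
    refine ⟨?_, ?_⟩
    · rw [hπ]
      exact hz s (Finset.mem_insert_of_mem (Finset.mem_union_left _ hs))
    · have h1 := hz (s / j M) (Finset.mem_insert_of_mem (Finset.mem_union_right _
        (Finset.mem_image_of_mem _ hs)))
      rw [map_mul, map_mul, hπ]
      calc V.valuation (j M) * V.valuation z < V.valuation (j M) * V.valuation (s / j M) :=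
            mul_lt_mul_of_pos_left h1 (zero_lt_iff.2 ((Valuation.ne_zero_iff _).2 hjM))
        _ = V.valuation s := by rw [← map_mul, mul_div_cancel₀ _ hjM]
  · intro T hT
    obtain ⟨c, hc0, hc⟩ := lowb hV T hT
    have hd : ∀ q : K1[X], ∃ d : K, d ≠ 0 ∧ ∀ b : K1, V.valuation (t - j b) < V.valuation d →
        V.valuation (q.eval₂ j t - j (q.eval b)) < V.valuation c :=
      fun q => dense_close h t q c hc0
    choose d hd0 hd using hd
    obtain ⟨w, hw0, hw⟩ := lowb hV (insert 1 (insert c (Q.image d))) (by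
      intro s hs
      rcases Finset.mem_insert.1 hs with rfl | hs
      · exact one_ne_zero
      rcases Finset.mem_insert.1 hs with rfl | hs
      · exact hc0
      · obtain ⟨q, -, rfl⟩ := Finset.mem_image.1 hs
        exact hd0 q)
    obtain ⟨b, hb⟩ := h t w hw0
    have hw1 : V.valuation w < 1 := by simpa using hw 1 (Finset.mem_insert_self _ _)
    have hwc : V.valuation w < V.valuation c :=
      hw c (Finset.mem_insert_of_mem (Finset.mem_insert_self _ _))
    have hbB : V.valuation (j b) ≤ V.valuation (j B) := by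
      have h1 : j b = t - (t - j b) := by ring
      rw [h1]
      exact (Valuation.map_sub _ _ _).trans (max_le hBt ((hb.trans hw1).le.trans hB1))
    refine ⟨b, fun s hs => (hb.trans hwc).trans (hc s hs), fun q hq s hs => ?_,
      fun q hq n => hMb q hq b π hbB n⟩
    refine (hd q b (hb.trans (hw (d q) ?_))).trans (hc s hs)
    exact Finset.mem_insert_of_mem (Finset.mem_insert_of_mem (Finset.mem_image_of_mem _ hq))

private theorem tail_bound {M π : K1} (hπ1 : V.valuation (j π) < 1) {n : ℕ} (hn : 1 ≤ n) :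
    V.valuation (j (M * π ^ n)) ≤ V.valuation (j (M * π)) := by
  obtain ⟨m, rfl⟩ := Nat.exists_eq_add_of_le hn
  rw [pow_add, pow_one, ← mul_assoc, map_mul, map_mul, map_pow, map_pow]
  calc V.valuation (j (M * π)) * V.valuation (j π) ^ m ≤ V.valuation (j (M * π)) * 1 :=
        mul_le_mul' le_rfl (pow_le_one' hπ1.le _)
    _ = _ := mul_one _

theorem choice_a (hV : ∃ z : K, z ≠ 0 ∧ V.valuation z < 1) (h : Dns j V) (t : K) (Q : Finset K1[X]) (hQ : ∀ q ∈ Q, q.eval₂ j t ≠ 0)
    (c : K) (hc : c ≠ 0) :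
    ∃ b π : K1, π ≠ 0 ∧ V.valuation (j π) ≤ V.valuation c ∧ V.valuation (j π) ≤ 1 ∧
      V.valuation (t - j b) < V.valuation (j π) ∧
      ∀ q ∈ Q, q.eval b ≠ 0 ∧ V.valuation (j (q.eval b)) = V.valuation (q.eval₂ j t) ∧
        ∀ n, 1 ≤ n → V.valuation (j ((sh b π q).coeff n)) < V.valuation (j (q.eval b)) := by
  classical
  obtain ⟨M, π, hM, hπ0, hπ1, hπS, hT⟩ := choice_pre hV h t Q
    (insert c (Q.image fun q => q.eval₂ j t)) (by
      intro s hs
      rcases Finset.mem_insert.1 hs with rfl | hs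
      · exact hc
      · obtain ⟨q, hq, rfl⟩ := Finset.mem_image.1 hs
        exact hQ q hq)
  have hjπ : j π ≠ 0 := (map_ne_zero j).2 hπ0
  obtain ⟨b, hb1, hb2, hb3⟩ := hT (insert (j π) (Q.image fun q => q.eval₂ j t)) (by
      intro s hs
      rcases Finset.mem_insert.1 hs with rfl | hs
      · exact hjπ
      · obtain ⟨q, hq, rfl⟩ := Finset.mem_image.1 hs
        exact hQ q hq)
  refine ⟨b, π, hπ0, (hπS c (Finset.mem_insert_self _ _)).1.le, hπ1.le,
    hb1 _ (Finset.mem_insert_self _ _), fun q hq => ?_⟩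
  have hm := Finset.mem_image_of_mem (fun q : K1[X] => q.eval₂ j t) hq
  have h1 : V.valuation (j (q.eval b)) = V.valuation (q.eval₂ j t) :=
    val_eq_of_close (hb2 q hq _ (Finset.mem_insert_of_mem hm))
  refine ⟨?_, h1, fun n hn => ?_⟩
  · intro h0
    rw [h0, map_zero, map_zero] at h1
    exact hQ q hq ((Valuation.zero_iff _).1 h1.symm)
  · rw [h1]
    exact ((hb3 q hq n).trans (tail_bound hπ1 hn)).trans_lt (hπS _ (Finset.mem_insert_of_mem hm)).2

theorem choice_b (hV : ∃ z : K, z ≠ 0 ∧ V.valuation z < 1) (h : Dns j V) (t : K) (Q : Finset K1[X]) (hQ : ∀ q ∈ Q, q.eval₂ j t ≠ 0)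
    (c : K) (hc : c ≠ 0) (f : K1[X]) (hf : f.eval₂ j t = 0) (hf' : f.derivative.eval₂ j t ≠ 0) :
    ∃ (b π γ : K1) (ε : K1[X]), π ≠ 0 ∧ V.valuation (j π) ≤ V.valuation c ∧
      V.valuation (j π) ≤ 1 ∧ V.valuation (t - j b) < V.valuation (j π) ∧ γ ≠ 0 ∧
      sh b π f = C γ * (X + ε) ∧ (∀ n, V.valuation (j (ε.coeff n)) < 1) ∧
      ∀ q ∈ Q, q.eval b ≠ 0 ∧ V.valuation (j (q.eval b)) = V.valuation (q.eval₂ j t) ∧
        ∀ n, 1 ≤ n → V.valuation (j ((sh b π q).coeff n)) < V.valuation (j (q.eval b)) := by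
  classical
  obtain ⟨M, π, hM, hπ0, hπ1, hπS, hT⟩ := choice_pre hV h t (insert f (insert f.derivative Q))
    (insert (f.derivative.eval₂ j t) (insert c (Q.image fun q => q.eval₂ j t))) (by
      intro s hs
      rcases Finset.mem_insert.1 hs with rfl | hs
      · exact hf'
      rcases Finset.mem_insert.1 hs with rfl | hs
      · exact hc
      · obtain ⟨q, hq, rfl⟩ := Finset.mem_image.1 hs
        exact hQ q hq)
  have hjπ : j π ≠ 0 := (map_ne_zero j).2 hπ0
  obtain ⟨b, hb1, hb2, hb3⟩ := hT (insert (j π * f.derivative.eval₂ j t)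
    (insert (f.derivative.eval₂ j t) (insert (j π) (Q.image fun q => q.eval₂ j t)))) (by
      intro s hs
      rcases Finset.mem_insert.1 hs with rfl | hs
      · exact mul_ne_zero hjπ hf'
      rcases Finset.mem_insert.1 hs with rfl | hs
      · exact hf'
      rcases Finset.mem_insert.1 hs with rfl | hs
      · exact hjπ
      · obtain ⟨q, hq, rfl⟩ := Finset.mem_image.1 hs
        exact hQ q hq)
  have hπv : V.valuation (j π) ≠ 0 := (Valuation.ne_zero_iff _).2 hjπ
  have hδv : V.valuation (f.derivative.eval₂ j t) ≠ 0 := (Valuation.ne_zero_iff _).2 hf'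
  have hfb : V.valuation (j (f.eval b)) < V.valuation (j π) * V.valuation (f.derivative.eval₂ j t) := by
    have h1 := hb2 f (Finset.mem_insert_self _ _) _ (Finset.mem_insert_self _ _)
    rw [hf, zero_sub, Valuation.map_neg, map_mul] at h1
    exact h1
  have hfb' : V.valuation (j (f.derivative.eval b)) = V.valuation (f.derivative.eval₂ j t) :=
    val_eq_of_close (hb2 _ (Finset.mem_insert_of_mem (Finset.mem_insert_self _ _)) _
      (Finset.mem_insert_of_mem (Finset.mem_insert_self _ _)))
  have hδ0 : f.derivative.eval b ≠ 0 := by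
    intro h0
    rw [h0, map_zero, map_zero] at hfb'
    exact hδv hfb'.symm
  have hγ0 : π * f.derivative.eval b ≠ 0 := mul_ne_zero hπ0 hδ0
  have hγv : V.valuation (j (π * f.derivative.eval b)) =
      V.valuation (j π) * V.valuation (f.derivative.eval₂ j t) := by
    rw [map_mul, map_mul, hfb']
  have hγp : 0 < V.valuation (j π) * V.valuation (f.derivative.eval₂ j t) :=
    zero_lt_iff.2 (mul_ne_zero hπv hδv)
  -- a quotient criterion
  have hquo : ∀ x : K1, V.valuation (j x) < V.valuation (j π) * V.valuation (f.derivative.eval₂ j t) →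
      V.valuation (j ((π * f.derivative.eval b)⁻¹ * x)) < 1 := by
    intro x hx
    rw [map_mul, map_inv₀, map_mul, map_inv₀, hγv, inv_mul_eq_div, div_lt_one₀ hγp]
    exact hx
  refine ⟨b, π, π * f.derivative.eval b, C (π * f.derivative.eval b)⁻¹ * sh b π f - X, hπ0,
    (hπS c (Finset.mem_insert_of_mem (Finset.mem_insert_self _ _))).1.le, hπ1.le,
    hb1 _ (Finset.mem_insert_of_mem (Finset.mem_insert_of_mem (Finset.mem_insert_self _ _))),
    hγ0, ?_, ?_, fun q hq => ?_⟩
  · rw [add_sub_cancel, ← mul_assoc, ← C_mul, mul_inv_cancel₀ hγ0, C_1, one_mul]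
  · intro n
    rw [coeff_sub, coeff_C_mul]
    rcases Nat.lt_or_ge n 2 with hn | hn
    · interval_cases n
      · rw [coeff_X_zero, sub_zero, sh_coeff_zero]
        exact hquo _ hfb
      · rw [coeff_X_one, sh_coeff_one, inv_mul_cancel₀ hγ0, sub_self, map_zero, map_zero]
        exact zero_lt_one
    · rw [coeff_X, if_neg (by omega), sub_zero]
      apply hquo
      refine (hb3 f (Finset.mem_insert_self _ _) n).trans_lt ?_
      obtain ⟨m, rfl⟩ := Nat.exists_eq_add_of_le hn
      have h4 := (hπS _ (Finset.mem_insert_self (f.derivative.eval₂ j t)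
        (insert c (Q.image fun q => q.eval₂ j t)))).2
      calc V.valuation (j (M * π ^ (2 + m)))
          = V.valuation (j π) * V.valuation (j (M * π ^ (1 + m))) := by
            rw [show 2 + m = (1 + m) + 1 by ring, pow_succ, ← mul_assoc, map_mul, map_mul, mul_comm]
        _ ≤ V.valuation (j π) * V.valuation (j (M * π)) :=
            mul_le_mul' le_rfl (tail_bound hπ1 (by omega))
        _ < V.valuation (j π) * V.valuation (f.derivative.eval₂ j t) :=
            mul_lt_mul_of_pos_left h4 (zero_lt_iff.2 hπv)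
  · have hq' : q ∈ insert f (insert f.derivative Q) :=
      Finset.mem_insert_of_mem (Finset.mem_insert_of_mem hq)
    have hm := Finset.mem_image_of_mem (fun q : K1[X] => q.eval₂ j t) hq
    have h1 : V.valuation (j (q.eval b)) = V.valuation (q.eval₂ j t) :=
      val_eq_of_close (hb2 q hq' _ (Finset.mem_insert_of_mem
        (Finset.mem_insert_of_mem (Finset.mem_insert_of_mem hm))))
    refine ⟨?_, h1, fun n hn => ?_⟩
    · intro h0
      rw [h0, map_zero, map_zero] at h1
      exact hQ q hq ((Valuation.zero_iff _).1 h1.symm)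
    · rw [h1]
      exact ((hb3 q hq' n).trans (tail_bound hπ1 hn)).trans_lt
        (hπS _ (Finset.mem_insert_of_mem (Finset.mem_insert_of_mem hm))).2

end Pool.Agent.Lib.TE
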