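import Pool.Agent.Lib.TE.ShB
import Pool.Agent.Lib.TE.FgE
import Pool.Agent.Lib.TE.GoE
import Pool.Agent.Lib.TC.Gen
import Pool.Agent.Lib.TC.I3

/-!
# Module StE: one step `K = K1(t)`
PROOF. Let `φ := j ∘ φ1`, `V1 := V.comap j`, `A, f, hf, hfrac` and the finite set `s` be given (`Unif`, `EMB3`).
1. `TC.exists_gens`: `A = locV V (closure (φ.range ∪ G))`, `G ⊆ A` finite; so every element of `K` is a fraction of elements of `closure (φ.range ∪ G)`.  `fg_sub`: `G1`.  Replace the elements `g` of `G1` which are not in `V1` by their inverses (the ring changes, but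
its field of fractions does not: `g = 1 / g⁻¹`): so `G1 ⊆ V1`.  `R1 := locV V1 (closure (φ1.range ∪ G1))`; `R1 ≤ V1` (`φ1.range ≤ V1` as `f` maps into `A ≤ V`), `locV V1 R1 = R1`, the ring homomorphism `Rb → R1` is `EFT` (see the proofs in
`TC/StepI.lean`, `TC/Gen.lean`, or `Abh`/`Comp` lemmas: `locV` of a finitely generated algebra), every element of `K1` is a fraction of elements of `R1`.
2. For `g ∈ G1` write `j g * d_g = n_g`, and `t * d_t = n_t`, with `n, d ∈ A`, `d ≠ 0`.  `Z := s ∪ (G \ {0}) ∪ {d_g} ∪ {d_t}`: nonzero elements of `V`.  For `z ∈ Z` choose `q_z, d_z` with `z * d_z(t) = q_z(t)`, `d_z(t) ≠ 0` (`hgen`), so `q_z(t) ≠ 0`.  `Q := {q_z, d_z}`.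
3. `choice_a` or `choice_b` with `c := 1`: `b, π` (and `γ, ε`); `a := (t - j b) / j π`, `V a < 1`, `t = j b + j π * a`.  If `t` is transcendental over `K1`, so is `a` (`P(a) = 0` gives a relation for `t`: substitute `X ↦ (X - b) / π`).  In the second case
`0 = f(t) = (sh b π f)(a) = j γ * (a + ε(a))` (`sh_eval₂`), so `a + ε(a) = 0`.
4. Write `b = β1 / β2`, `π = π1 / π2`, `βi, πi ∈ R1`, `β2, π1, π2 ≠ 0`.  `s1 :=` the nonzero elements among: `β2, π1, π2`, `q_z(b) / d_z(b)` (`z ∈ Z`; value of `z`, at most one), `coeff n (sh b π q) / q(b)` (`q ∈ Q`, `1 ≤ n ≤ natDegree`), `ε.coeff n`.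
`H` for `R1` and `s1`: `g1, h, x, w`, `A1 := locV V1 (closure (R1 ∪ g1))`, `GoodPar3 V1 R1 A1 x w`, all elements of `s1` are `MonV V1 A1 x`, in particular in `A1`.  `A1` is noetherian (localization of a finitely generated algebra over the noetherian ring `Rb`, see `TC`/`Abh`), `locV V1 A1 = A1`.
5. `A' := locV V (closure (j A1 ∪ {a}))`.  For `q ∈ Q`: `q(t) = j (q(b)) * (1 + ε_q(a))`, `ε_q := C (q(b))⁻¹ * sh b π q - 1` (coefficients in `A1`, constant coefficient zero), `unit_of`.  So `z = j (q_z(b) / d_z(b)) * unit` is `MonV V A' (j ∘ x)` for all `z ∈ Z`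
(`monV_map`).  So `G ⊆ A'`, `A ≤ A'`.
6. `Den V A A' (j ∘ x)`, i.e. membership in the ring `denRing V A A' (j ∘ x)` (`AbhE0.lean`): for `j g` (`g ∈ G1`, denominator `d_g`), for `φ.range ≤ A`, so for `j (closure (φ1.range ∪ G1))` and `j R1` (`locV_le_denRing`), for `j A1` (`hG.den`: `D ∈ R1`, `MonV D`, `D * z ∈ R1`; `Den.div` for `(j D)⁻¹`), for `t` (denominator `d_t`), for `(j β2)⁻¹, (j π)⁻¹`
(`Den.div`, `MonV`), so for `a`, so for `A'` (`Subring.closure_le`, `locV_le_denRing`).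
7. `good_tr` or `good_et`.  `g := j G1 ∪ j g1 ∪ {a}`: `locV V (closure (A ∪ g)) = A'` (`locV_closure_locV`, `Imp.locV_locV_union`, both inclusions by closure induction), `g ⊆ V`.
-/

namespace Pool.Agent.Lib.TE

open Polynomial Pool.Agent.Lib.MP_3029eb_ag Pool.Agent.Lib.MP_3029eb_ag.Abh IsLocalRing

/-- a ring closed under localization at the centre contains the images of fractions -/
private theorem loc_sub {K1 K : Type} [Field K1] [Field K] (j : K1 →+* K)
    (V : ValuationSubring K) {B : Subring K1} {L : Subring K} (hL : locV V L = L)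
    (h : ∀ z ∈ B, j z ∈ L) : ∀ z ∈ locV (V.comap j) B, j z ∈ L := by
  rintro z ⟨a, ha, b, hb, hb1, hz⟩
  rw [← hL]
  refine ⟨j a, h a ha, j b, h b hb, (C2_comap_val_one V j b).1 hb1, ?_⟩
  rw [← map_mul, hz]

private theorem clos_sub {K1 K : Type} [Field K1] [Field K] (j : K1 →+* K)
    {s : Set K1} {L : Subring K} (h : ∀ z ∈ s, j z ∈ L) : ∀ z ∈ Subring.closure s, j z ∈ L := by
  have h1 : Subring.closure s ≤ L.comap j := Subring.closure_le.2 fun z hz => h z hz
  exact fun z hz => h1 hz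

private theorem core {Rb K1 K : Type} [CommRing Rb] [IsNoetherianRing Rb] [Field K1] [Field K]
    (φ1 : Rb →+* K1) (j : K1 →+* K) (V : ValuationSubring K) (t : K)
    {r : ℕ} (H : TC.Unif φ1 (V.comap j) r)
    (A : Subring K) (hA : A ≤ V.toSubring) (_ : locV V A = A) (f : Rb →+* A)
    (hfφ : ∀ c, (f c : K) = (j.comp φ1) c)
    (G : Finset K)
    (hGA : A = locV V (Subring.closure (((j.comp φ1).range : Set K) ∪ (G : Set K))))
    (G1 : Finset K1) (hG1V : ∀ g ∈ G1, g ∈ V.comap j)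
    (hG1 : ∀ z : K1, ∃ a ∈ Subring.closure ((φ1.range : Set K1) ∪ (G1 : Set K1)),
      ∃ b ∈ Subring.closure ((φ1.range : Set K1) ∪ (G1 : Set K1)), b ≠ 0 ∧ z * b = a)
    (n d : K → K) (hnd : ∀ z, n z ∈ A ∧ d z ∈ A ∧ z * d z = n z)
    (qn qd : K → K1[X])
    (hq : ∀ z, (qd z).eval₂ j t ≠ 0 ∧ z * (qd z).eval₂ j t = (qn z).eval₂ j t)
    (Z : Finset K) (hZ : ∀ z ∈ Z, z ≠ 0 ∧ z ∈ V) (hGZ : ∀ z ∈ G, z ≠ 0 → z ∈ Z)
    (hG1Z : ∀ g ∈ G1, d (j g) ∈ Z) (htZ : d t ∈ Z)
    (b π : K1) (hπ0 : π ≠ 0) (_ : V.valuation (j π) ≤ 1) (a : K) (ha : V.valuation a < 1)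
    (hta : t = j b + j π * a)
    (hQ : ∀ z ∈ Z, ∀ q, (q = qn z ∨ q = qd z) → q.eval b ≠ 0 ∧
      V.valuation (j (q.eval b)) = V.valuation (q.eval₂ j t) ∧
        ∀ m, 1 ≤ m → V.valuation (j ((sh b π q).coeff m)) < V.valuation (j (q.eval b)))
    (E1 : Finset K1) (hE1 : ∀ e ∈ E1, e ≠ 0 ∧ e ∈ V.comap j) :
    ∃ (R1 A1 : Subring K1) (A' : Subring K) (g : Finset K) (h : ℕ) (x : Fin r → K1)
      (w : Fin h → K1), A1 ≤ (V.comap j).toSubring ∧ locV (V.comap j) A1 = A1 ∧
      IsNoetherianRing A1 ∧ TC.GoodPar3 (V.comap j) R1 A1 x w ∧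
      (∀ e ∈ E1, MonV (V.comap j) A1 x e) ∧
      A' = locV V (Subring.closure (((A1.map j : Subring K) : Set K) ∪ {a})) ∧
      (∀ z ∈ A', Den V A A' (fun i => j (x i)) z) ∧
      (∀ z ∈ Z, MonV V A' (fun i => j (x i)) z) ∧ (∀ z ∈ g, z ∈ V) ∧
      locV V (Subring.closure ((A : Set K) ∪ (g : Set K))) = A' := by
  classical
  have hmc : ∀ z : K1, z ∈ V.comap j ↔ V.valuation (j z) ≤ 1 := fun z => by
    rw [ValuationSubring.mem_comap, ValuationSubring.valuation_le_one_iff]
  have hφV : ∀ c, j (φ1 c) ∈ A := fun c => by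
    have h1 := hfφ c
    rw [RingHom.comp_apply] at h1
    rw [← h1]
    exact (f c).2
  set V1 := V.comap j with hV1
  set B1 := Subring.closure ((φ1.range : Set K1) ∪ (G1 : Set K1)) with hB1
  have hB1V : B1 ≤ V1.toSubring := by
    rw [hB1, Subring.closure_le]
    rintro z (⟨c, rfl⟩ | hz)
    · exact hA (hφV c)
    · exact hG1V z hz
  have hB1R : B1 ≤ locV V1 B1 := le_locV V1 B1
  have hR1V : locV V1 B1 ≤ V1.toSubring := locV_le V1 hB1V
  have hφB : ∀ c, φ1 c ∈ B1 := fun c => Subring.subset_closure (Or.inl ⟨c, rfl⟩)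
  -- the structure homomorphism
  let g0 : φ1.range →+* locV V1 B1 := Subring.inclusion (fun z hz => hB1R (by
    obtain ⟨c, rfl⟩ := hz
    exact hφB c))
  have hg0 : ∀ z : φ1.range, (g0 z : K1) = z := fun z => rfl
  have hEF0 : EFT φ1.rangeRestrict := by
    have := EFT_comp_surjective (RingHom.id Rb) φ1.rangeRestrict (by
      show @Algebra.EssFiniteType Rb Rb _ _ (RingHom.id Rb).toAlgebra
      exact inferInstanceAs (Algebra.EssFiniteType Rb Rb)) φ1.rangeRestrict_surjective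
    exact this
  have hEF1 : EFT (g0.comp φ1.rangeRestrict) :=
    EFT_locV V1 φ1.range φ1.rangeRestrict hEF0 G1 g0 hg0
  have hfracR : ∀ z : K1, ∃ a ∈ locV V1 B1, ∃ b ∈ locV V1 B1, b ≠ 0 ∧ z * b = a := fun z => by
    obtain ⟨a, ha, b, hb, hb0, h⟩ := hG1 z
    exact ⟨a, hB1R ha, b, hB1R hb, hb0, h⟩
  obtain ⟨β1, hβ1, β2, hβ2, hβ20, hβ⟩ := hG1 b
  obtain ⟨π1, hπ1m, π2, hπ2, hπ20, hππ⟩ := hG1 π
  have hπ10 : π1 ≠ 0 := by rw [← hππ]; exact mul_ne_zero hπ0 hπ20
  -- the finite set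
  let cf : K1[X] → Finset K1 := fun q =>
    (Finset.range ((sh b π q).natDegree + 1)).image fun m => (sh b π q).coeff m / q.eval b
  let s0 : Finset K1 := {β2, π1, π2} ∪ Z.image (fun z => (qn z).eval b / (qd z).eval b) ∪
    Z.biUnion (fun z => cf (qn z) ∪ cf (qd z)) ∪ E1
  let s1 : Finset K1 := s0.filter (· ≠ 0)
  have hratio : ∀ z ∈ Z, V.valuation (j ((qn z).eval b / (qd z).eval b)) = V.valuation z := by
    intro z hz
    obtain ⟨h1, h2, -⟩ := hQ z hz _ (Or.inl rfl)
    obtain ⟨h3, h4, -⟩ := hQ z hz _ (Or.inr rfl)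
    obtain ⟨h5, h6⟩ := hq z
    rw [map_div₀, map_div₀, h2, h4, ← h6, map_mul]
    exact mul_div_cancel_right₀ _ ((_root_.map_ne_zero _).2 h5)
  have hcfV : ∀ z ∈ Z, ∀ q, (q = qn z ∨ q = qd z) → ∀ m,
      V.valuation (j ((sh b π q).coeff m / q.eval b)) ≤ 1 := by
    intro z hz q hqz m
    obtain ⟨h1, -, h3⟩ := hQ z hz q hqz
    have h0 : V.valuation (j (q.eval b)) ≠ 0 := by simpa using h1
    rcases Nat.eq_zero_or_pos m with rfl | hm
    · rw [sh_coeff_zero, div_self h1, map_one, map_one]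
    · rw [map_div₀, map_div₀]
      exact (div_le_one₀ (zero_lt_iff.2 h0)).2 (h3 m hm).le
  have hs0V : ∀ e ∈ s0, e ∈ V1 := by
    intro e he
    simp only [s0, cf, Finset.mem_union, Finset.mem_insert, Finset.mem_singleton,
      Finset.mem_image, Finset.mem_biUnion, Finset.mem_range] at he
    rcases he with (((rfl | rfl | rfl) | ⟨z, hz, rfl⟩) | ⟨z, hz, ⟨m, -, rfl⟩ | ⟨m, -, rfl⟩⟩) | he
    · exact hB1V hβ2
    · exact hB1V hπ1m
    · exact hB1V hπ2
    · rw [hmc, hratio z hz]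
      exact (V.valuation_le_one_iff z).2 (hZ z hz).2
    · rw [hmc]
      exact hcfV z hz _ (Or.inl rfl) m
    · rw [hmc]
      exact hcfV z hz _ (Or.inr rfl) m
    · exact (hE1 e he).2
  obtain ⟨g1, h, x, w, hg1, hG, hmon⟩ := H (locV V1 B1) hR1V (locV_locV V1 B1)
    (g0.comp φ1.rangeRestrict) (fun c => rfl) hEF1 hfracR s1 (by
      intro e he
      obtain ⟨h1, h2⟩ := Finset.mem_filter.1 he
      exact ⟨h2, hs0V e h1, hfracR e⟩)
  have hmon' : ∀ e ∈ s0, e ≠ 0 → MonV V1 (locV V1 (Subring.closure ((locV V1 B1 : Set K1) ∪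
      (g1 : Set K1)))) x e := fun e he h0 => hmon e (Finset.mem_filter.2 ⟨he, h0⟩)
  set A1 := locV V1 (Subring.closure ((locV V1 B1 : Set K1) ∪ (g1 : Set K1))) with hA1
  have hcl1 : Subring.closure ((locV V1 B1 : Set K1) ∪ (g1 : Set K1)) ≤ V1.toSubring := by
    rw [Subring.closure_le]
    rintro z (hz | hz)
    · exact hR1V hz
    · exact hg1 z hz
  have hA1V : A1 ≤ V1.toSubring := locV_le V1 hcl1
  have hA1loc : locV V1 A1 = A1 := locV_locV V1 _
  have hRA : locV V1 B1 ≤ A1 := fun z hz => le_locV V1 _ (Subring.subset_closure (Or.inl hz))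
  have hA1n : IsNoetherianRing A1 := by
    have h1 : EFT ((Subring.inclusion hRA).comp (g0.comp φ1.rangeRestrict)) :=
      EFT_locV V1 (locV V1 B1) _ hEF1 g1 (Subring.inclusion hRA) (fun z => rfl)
    exact h1.isNoetherianRing
  have hmemE : ∀ e ∈ s0, e ∈ A1 := fun e he => by
    rcases eq_or_ne e 0 with rfl | h0
    · exact zero_mem _
    · exact (hmon' e he h0).mem hG.mem
  set A' := locV V (Subring.closure (((A1.map j : Subring K) : Set K) ∪ {a})) with hA'
  have hcl2 : Subring.closure (((A1.map j : Subring K) : Set K) ∪ {a}) ≤ V.toSubring := by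
    rw [Subring.closure_le]
    rintro z (⟨y, hy, rfl⟩ | hz)
    · exact hA1V hy
    · rw [Set.mem_singleton_iff.1 hz]
      exact (V.valuation_le_one_iff a).1 ha.le
  have hA'V : A' ≤ V.toSubring := locV_le V hcl2
  have hA'loc : locV V A' = A' := locV_locV V _
  have hjA : ∀ z ∈ A1, j z ∈ A' := fun z hz =>
    le_locV V _ (Subring.subset_closure (Or.inl ⟨z, hz, rfl⟩))
  have haA : a ∈ A' := le_locV V _ (Subring.subset_closure (Or.inr rfl))
  have hjx : ∀ i, j (x i) ∈ A' := fun i => hjA _ (hG.mem i)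
  have hx0 : ∀ i, x i ≠ 0 := hG.ind.ne
  -- the units
  have hun : ∀ z ∈ Z, ∀ q, (q = qn z ∨ q = qd z) → ∃ u ∈ A', V.valuation u = 1 ∧
      q.eval₂ j t = j (q.eval b) * u := by
    intro z hz q hqz
    obtain ⟨h1, -, h3⟩ := hQ z hz q hqz
    have hco : ∀ m, (C (q.eval b)⁻¹ * sh b π q - 1).coeff m ∈ A1 := by
      intro m
      rw [coeff_sub, coeff_C_mul]
      refine sub_mem ?_ ?_
      · by_cases hm : m ∈ Finset.range ((sh b π q).natDegree + 1)
        · have : (q.eval b)⁻¹ * (sh b π q).coeff m = (sh b π q).coeff m / q.eval b := by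
            rw [div_eq_mul_inv, mul_comm]
          rw [this]
          refine hmemE _ ?_
          have h4 : (sh b π q).coeff m / q.eval b ∈ cf q := Finset.mem_image_of_mem _ hm
          refine Finset.mem_union_left _ (Finset.mem_union_right _
            (Finset.mem_biUnion.2 ⟨z, hz, ?_⟩))
          rcases hqz with rfl | rfl
          · exact Finset.mem_union_left _ h4
          · exact Finset.mem_union_right _ h4
        · rw [coeff_eq_zero_of_natDegree_lt (by simpa using hm), mul_zero]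
          exact zero_mem _
      · rw [coeff_one]
        split_ifs
        · exact one_mem _
        · exact zero_mem _
    have h0 : (C (q.eval b)⁻¹ * sh b π q - 1).coeff 0 = 0 := by
      rw [coeff_sub, coeff_C_mul, sh_coeff_zero, inv_mul_cancel₀ h1, coeff_one_zero, sub_self]
    obtain ⟨h4, h5⟩ := unit_of j V A1 hA1V a ha _ hco h0
    refine ⟨_, h4, h5, ?_⟩
    rw [eval₂_sub, eval₂_mul, eval₂_C, eval₂_one, sh_eval₂, ← hta, add_sub_cancel,
      ← mul_assoc, ← map_mul, mul_inv_cancel₀ h1, map_one, one_mul]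
  have hZm : ∀ z ∈ Z, MonV V A' (fun i => j (x i)) z := by
    intro z hz
    obtain ⟨u, hu, hu1, hu2⟩ := hun z hz _ (Or.inl rfl)
    obtain ⟨v, hv, hv1, hv2⟩ := hun z hz _ (Or.inr rfl)
    obtain ⟨h1, -⟩ := hQ z hz _ (Or.inl rfl)
    obtain ⟨h3, -⟩ := hQ z hz _ (Or.inr rfl)
    obtain ⟨h5, h6⟩ := hq z
    have hv0 : v ≠ 0 := by rintro rfl; rw [map_zero] at hv1; exact zero_ne_one hv1
    have h7 : MonV V A' (fun i => j (x i)) (j ((qn z).eval b / (qd z).eval b)) := by
      refine monV_map j V hjA (hmon' _ ?_ (div_ne_zero h1 h3))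
      exact Finset.mem_union_left _ (Finset.mem_union_left _ (Finset.mem_union_right _
        (Finset.mem_image_of_mem _ hz)))
    have h8 : MonV V A' (fun i => j (x i)) (u * v⁻¹) := by
      refine MonV.of_unit (mul_mem hu (E5_inv hA'loc hv hv1)) ?_
      rw [map_mul, map_inv₀, hu1, hv1, inv_one, mul_one]
    have h9 : z = j ((qn z).eval b / (qd z).eval b) * (u * v⁻¹) := by
      rw [hu2, hv2] at h6
      have h10 : j ((qd z).eval b) ≠ 0 := (_root_.map_ne_zero _).2 h3
      rw [map_div₀]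
      field_simp
      linear_combination h6
    rw [h9]
    exact h7.mul h8
  have hGA' : ∀ z ∈ G, z ∈ A' := fun z hz => by
    rcases eq_or_ne z 0 with rfl | h0
    · exact zero_mem _
    · exact (hZm z (hGZ z hz h0)).mem hjx
  have hAA' : A ≤ A' := by
    rw [hGA, ← hA'loc]
    refine locV_mono V ?_
    rw [Subring.closure_le]
    rintro z (⟨c, rfl⟩ | hz)
    · exact hjA _ (hRA (hB1R (hφB c)))
    · exact hGA' z hz
  -- the denominators
  have hdG : ∀ g ∈ G1, j g ∈ denRing V A A' (fun i => j (x i)) := fun g hg =>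
    Den.div (Den.of_mem (hnd (j g)).1) (Den.of_mem (hnd (j g)).2.1) (hZm _ (hG1Z g hg))
      (hnd (j g)).2.2
  have hdB : ∀ z ∈ B1, j z ∈ denRing V A A' (fun i => j (x i)) := by
    refine clos_sub j ?_
    rintro z (⟨c, rfl⟩ | hz)
    · exact Den.of_mem (hφV c)
    · exact hdG z hz
  have hdR : ∀ z ∈ locV V1 B1, j z ∈ denRing V A A' (fun i => j (x i)) := by
    rintro z ⟨y, hy, e, he, he1, hz⟩
    refine Den.div (hdB y hy) (hdB e he) (MonV.of_unit (hjA _ (hRA (hB1R he)))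
      ((C2_comap_val_one V j e).1 he1)) ?_
    rw [← map_mul, hz]
  have hdA : ∀ z ∈ A1, j z ∈ denRing V A A' (fun i => j (x i)) := by
    intro z hz
    obtain ⟨D, hD, hDm, hDz⟩ := hG.den z hz
    refine Den.div (hdR _ hDz) (hdR _ hD) (monV_map j V hjA hDm) ?_
    rw [← map_mul, mul_comm]
  have hdt : t ∈ denRing V A A' (fun i => j (x i)) :=
    Den.div (Den.of_mem (hnd t).1) (Den.of_mem (hnd t).2.1) (hZm _ htZ) (hnd t).2.2
  have hs0β : β2 ∈ s0 := by simp [s0]
  have hs0π1 : π1 ∈ s0 := by simp [s0]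
  have hjβ2 : j β2 ≠ 0 := (_root_.map_ne_zero _).2 hβ20
  have hjπ2 : j π2 ≠ 0 := (_root_.map_ne_zero _).2 hπ20
  have hda : a ∈ denRing V A A' (fun i => j (x i)) := by
    have h1 : (t * j β2 - j β1) * j π2 ∈ denRing V A A' (fun i => j (x i)) :=
      mul_mem (sub_mem (mul_mem hdt (hdB _ hβ2)) (hdB _ hβ1)) (hdB _ hπ2)
    have h2 : j π1 * j β2 ∈ denRing V A A' (fun i => j (x i)) :=
      mul_mem (hdB _ hπ1m) (hdB _ hβ2)
    refine Den.div h1 h2 ((monV_map j V hjA (hmon' _ hs0π1 hπ10)).mul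
      (monV_map j V hjA (hmon' _ hs0β hβ20))) ?_
    rw [hta, ← hβ, ← hππ, map_mul, map_mul]
    ring
  have hdA' : ∀ z ∈ A', Den V A A' (fun i => j (x i)) z := by
    have h1 : Subring.closure (((A1.map j : Subring K) : Set K) ∪ {a}) ≤
        denRing V A A' (fun i => j (x i)) := by
      rw [Subring.closure_le]
      rintro z (⟨y, hy, rfl⟩ | hz)
      · exact hdA y hy
      · rw [Set.mem_singleton_iff.1 hz]
        exact hda
    exact fun z hz => locV_le_denRing h1 (le_locV V _) hz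
  refine ⟨locV V1 B1, A1, A', G1.image j ∪ g1.image j ∪ {a}, h, x, w, hA1V, hA1loc, hA1n, hG,
    fun e he => hmon' e (Finset.mem_union_right _ he) (hE1 e he).1, rfl, hdA', hZm, ?_, ?_⟩
  · intro z hz
    rcases Finset.mem_union.1 hz with hz | hz
    · rcases Finset.mem_union.1 hz with hz | hz
      · obtain ⟨y, hy, rfl⟩ := Finset.mem_image.1 hz
        exact hG1V y hy
      · obtain ⟨y, hy, rfl⟩ := Finset.mem_image.1 hz
        exact hg1 y hy
    · rw [Finset.mem_singleton.1 hz]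
      exact (V.valuation_le_one_iff a).1 ha.le
  · refine le_antisymm ?_ ?_
    · rw [← hA'loc]
      refine locV_mono V ?_
      rw [Subring.closure_le]
      rintro z (hz | hz)
      · exact hAA' hz
      · rcases Finset.mem_union.1 (Finset.mem_coe.1 hz) with hz | hz
        · rcases Finset.mem_union.1 hz with hz | hz
          · obtain ⟨y, hy, rfl⟩ := Finset.mem_image.1 hz
            exact hjA _ (hRA (hB1R (Subring.subset_closure (Or.inr hy))))
          · obtain ⟨y, hy, rfl⟩ := Finset.mem_image.1 hz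
            exact hjA _ (le_locV V1 _ (Subring.subset_closure (Or.inr hy)))
        · rw [Finset.mem_singleton.1 hz]
          exact haA
    · set L := locV V (Subring.closure ((A : Set K) ∪
        ((G1.image j ∪ g1.image j ∪ {a} : Finset K) : Set K))) with hL
      have hLL : locV V L = L := locV_locV V _
      have hAL : ∀ z ∈ A, z ∈ L := fun z hz => le_locV V _ (Subring.subset_closure (Or.inl hz))
      have hgL : ∀ z ∈ (G1.image j ∪ g1.image j ∪ {a} : Finset K), z ∈ L := fun z hz =>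
        le_locV V _ (Subring.subset_closure (Or.inr hz))
      have h1 : ∀ z ∈ B1, j z ∈ L := by
        refine clos_sub j ?_
        rintro z (⟨c, rfl⟩ | hz)
        · exact hAL _ (hφV c)
        · exact hgL _ (Finset.mem_union_left _ (Finset.mem_union_left _
            (Finset.mem_image_of_mem _ hz)))
      have h2 : ∀ z ∈ locV V1 B1, j z ∈ L := loc_sub j V hLL h1
      have h3 : ∀ z ∈ A1, j z ∈ L := by
        refine loc_sub j V hLL (clos_sub j ?_)
        rintro z (hz | hz)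
        · exact h2 z hz
        · exact hgL _ (Finset.mem_union_left _ (Finset.mem_union_right _
            (Finset.mem_image_of_mem _ hz)))
      rw [← hLL]
      refine locV_mono V ?_
      rw [Subring.closure_le]
      rintro z (⟨y, hy, rfl⟩ | hz)
      · exact h3 y hy
      · rw [Set.mem_singleton_iff.1 hz]
        exact hgL _ (Finset.mem_union_right _ (Finset.mem_singleton_self a))

theorem unif_step1 {Rb K1 K : Type} [CommRing Rb] [IsNoetherianRing Rb] [Field K1] [Field K]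
    (φ1 : Rb →+* K1) (j : K1 →+* K) (V : ValuationSubring K)
    (hV : ∃ z : K, z ≠ 0 ∧ V.valuation z < 1) (hd : Dns j V) (t : K)
    (hgen : ∀ z : K, ∃ q d : K1[X], d.eval₂ j t ≠ 0 ∧ z * d.eval₂ j t = q.eval₂ j t)
    (ht : (∀ P : K1[X], P.eval₂ j t = 0 → P = 0) ∨
      ∃ f : K1[X], f.eval₂ j t = 0 ∧ f.derivative.eval₂ j t ≠ 0) {r : ℕ}
    (H : TC.Unif φ1 (V.comap j) r) : TC.Unif (j.comp φ1) V r := by
  classical
  have hd_dns := hd
  clear hd
  intro A hA hloc f hfφ hf hfrac s hs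
  obtain ⟨G, hGsub, hGA⟩ := TC.exists_gens (j.comp φ1) V A hA hloc f hfφ hf
  have hGfrac : ∀ z : K, ∃ a ∈ Subring.closure (((j.comp φ1).range : Set K) ∪ (G : Set K)),
      ∃ b ∈ Subring.closure (((j.comp φ1).range : Set K) ∪ (G : Set K)), b ≠ 0 ∧ z * b = a := by
    intro z
    obtain ⟨a, ha, b, hb, hb0, h⟩ := hfrac z
    have h1 := C2_locV_le_frac V
      (C2_le_frac (Subring.closure (((j.comp φ1).range : Set K) ∪ (G : Set K))))
    rw [← hGA] at h1
    exact C2_div_mem_frac (h1 ha) (h1 hb) hb0 h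
  obtain ⟨G1', hG1'⟩ := fg_sub φ1 j t hgen G hGfrac
  -- generators in the valuation ring
  obtain ⟨G1, hG1V, hG1⟩ : ∃ G1 : Finset K1, (∀ g ∈ G1, g ∈ V.comap j) ∧ ∀ z : K1,
      ∃ a ∈ Subring.closure ((φ1.range : Set K1) ∪ (G1 : Set K1)),
      ∃ b ∈ Subring.closure ((φ1.range : Set K1) ∪ (G1 : Set K1)), b ≠ 0 ∧ z * b = a := by
    refine ⟨G1'.image fun g => if g ∈ V.comap j then g else g⁻¹, ?_, ?_⟩
    · intro g hg
      obtain ⟨y, hy, rfl⟩ := Finset.mem_image.1 hg
      split_ifs with h1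
      · exact h1
      · exact ((V.comap j).mem_or_inv_mem y).resolve_left h1
    · intro z
      obtain ⟨a, ha, b, hb, hb0, h⟩ := hG1' z
      have h1 : Subring.closure ((φ1.range : Set K1) ∪ (G1' : Set K1)) ≤
          C2_frac (Subring.closure ((φ1.range : Set K1) ∪
            ((G1'.image fun g => if g ∈ V.comap j then g else g⁻¹ : Finset K1) : Set K1))) := by
        rw [Subring.closure_le]
        rintro y (hy | hy)
        · exact C2_le_frac _ (Subring.subset_closure (Or.inl hy))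
        · have h2 : (if y ∈ V.comap j then y else y⁻¹) ∈ Subring.closure ((φ1.range : Set K1) ∪
              ((G1'.image fun g => if g ∈ V.comap j then g else g⁻¹ : Finset K1) : Set K1)) :=
            Subring.subset_closure (Or.inr (Finset.mem_coe.2 (Finset.mem_image_of_mem
              (fun g => if g ∈ V.comap j then g else g⁻¹) hy)))
          by_cases h3 : y ∈ V.comap j
          · rw [if_pos h3] at h2
            exact C2_le_frac _ h2
          · rw [if_neg h3] at h2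
            have hy0 : y ≠ 0 := by rintro rfl; exact h3 (zero_mem _)
            exact ⟨1, one_mem _, y⁻¹, h2, inv_ne_zero hy0, mul_inv_cancel₀ hy0⟩
      exact C2_div_mem_frac (h1 ha) (h1 hb) hb0 h
  choose n hn d hd hd0 hnd using hfrac
  choose qn qd hqd0 hq using hgen
  let Z : Finset K := s ∪ G.filter (· ≠ 0) ∪ G1.image (fun g => d (j g)) ∪ {d t}
  have hZ : ∀ z ∈ Z, z ≠ 0 ∧ z ∈ V := by
    intro z hz
    simp only [Z, Finset.mem_union, Finset.mem_filter, Finset.mem_image,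
      Finset.mem_singleton] at hz
    rcases hz with ((hz | hz) | ⟨g, -, rfl⟩) | rfl
    · exact ⟨(hs z hz).1, (hs z hz).2.1⟩
    · exact ⟨hz.2, hA (hGsub hz.1)⟩
    · exact ⟨hd0 _, hA (hd _)⟩
    · exact ⟨hd0 _, hA (hd _)⟩
  have hsZ : ∀ z ∈ s, z ∈ Z := fun z hz => by simp [Z, hz]
  have hGZ : ∀ z ∈ G, z ≠ 0 → z ∈ Z := fun z hz h0 => by simp [Z, hz, h0]
  have hG1Z : ∀ g ∈ G1, d (j g) ∈ Z := fun g hg =>
    Finset.mem_union_left _ (Finset.mem_union_right _
      (Finset.mem_image_of_mem (fun g => d (j g)) hg))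
  have htZ : d t ∈ Z := Finset.mem_union_right _ (Finset.mem_singleton_self _)
  have hQne : ∀ q ∈ Z.image qn ∪ Z.image qd, q.eval₂ j t ≠ 0 := by
    intro q hq'
    rcases Finset.mem_union.1 hq' with h | h
    · obtain ⟨z, hz, rfl⟩ := Finset.mem_image.1 h
      rw [← hq z]
      exact mul_ne_zero (hZ z hz).1 (hqd0 z)
    · obtain ⟨z, hz, rfl⟩ := Finset.mem_image.1 h
      exact hqd0 z
  have hmemQ : ∀ z ∈ Z, ∀ q, (q = qn z ∨ q = qd z) → q ∈ Z.image qn ∪ Z.image qd := by
    rintro z hz q (rfl | rfl)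
    · exact Finset.mem_union_left _ (Finset.mem_image_of_mem _ hz)
    · exact Finset.mem_union_right _ (Finset.mem_image_of_mem _ hz)
  have haux : ∀ b π : K1, π ≠ 0 → V.valuation (t - j b) < V.valuation (j π) →
      V.valuation ((t - j b) / j π) < 1 ∧ t = j b + j π * ((t - j b) / j π) := by
    intro b π h0 h1
    have h2 : j π ≠ 0 := (_root_.map_ne_zero _).2 h0
    refine ⟨?_, ?_⟩
    · rw [map_div₀]
      exact (div_lt_one₀ (zero_lt_iff.2 ((_root_.map_ne_zero _).2 h2))).2 h1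
    · rw [mul_div_cancel₀ _ h2]
      ring
  rcases ht with htr | ⟨fm, hfm, hfm'⟩
  · obtain ⟨b, π, hπ0, -, hπ1, hb, hQ⟩ := choice_a hV hd_dns t (Z.image qn ∪ Z.image qd) hQne 1
      one_ne_zero
    obtain ⟨ha, hta⟩ := haux b π hπ0 hb
    obtain ⟨R1, A1, A', g, h, x, w, hA1V, hA1loc, hA1n, hG, -, hA', hden, hZm, hgV, heq⟩ :=
      core φ1 j V t H A hA hloc f hfφ G hGA G1 hG1V hG1 n d
        (fun z => ⟨hn z, hd z, hnd z⟩) qn qd (fun z => ⟨hqd0 z, hq z⟩) Z hZ hGZ hG1Z htZ b π hπ0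
        hπ1 _ ha hta (fun z hz q hqz => hQ q (hmemQ z hz q hqz)) ∅ (by simp)
    have htr' : ∀ P : K1[X], P.eval₂ j ((t - j b) / j π) = 0 → P = 0 := by
      intro P hP
      have h1 : (P.comp (C π⁻¹ * (X - C b))).eval₂ j t = 0 := by
        rw [eval₂_comp, eval₂_mul, eval₂_sub, eval₂_C, eval₂_C, eval₂_X, map_inv₀]
        rw [div_eq_inv_mul] at hP
        exact hP
      have h2 := htr _ h1
      have h3 : P = (P.comp (C π⁻¹ * (X - C b))).comp (C b + C π * X) := by
        rw [comp_assoc]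
        simp only [mul_comp, sub_comp, C_comp, X_comp, add_sub_cancel_left]
        rw [← mul_assoc, ← C_mul, inv_mul_cancel₀ hπ0, C_1, one_mul, comp_X]
      rw [h3, h2, zero_comp]
    refine ⟨g, h + 1, fun i => j (x i), Fin.cons ((t - j b) / j π) fun i => j (w i), hgV, ?_, ?_⟩
    · rw [heq]
      exact good_tr j V A R1 A1 hA1V hA1loc x w hG _ ha htr' A' hA' hden
    · rw [heq]
      exact fun z hz => hZm z (hsZ z hz)
  · obtain ⟨b, π, γ, ε, hπ0, -, hπ1, hb, hγ, hsh, hε, hQ⟩ := choice_b hV hd_dns t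
      (Z.image qn ∪ Z.image qd) hQne 1 one_ne_zero fm hfm hfm'
    obtain ⟨ha, hta⟩ := haux b π hπ0 hb
    obtain ⟨R1, A1, A', g, h, x, w, hA1V, hA1loc, hA1n, hG, hEm, hA', hden, hZm, hgV, heq⟩ :=
      core φ1 j V t H A hA hloc f hfφ G hGA G1 hG1V hG1 n d
        (fun z => ⟨hn z, hd z, hnd z⟩) qn qd (fun z => ⟨hqd0 z, hq z⟩) Z hZ hGZ hG1Z htZ b π hπ0
        hπ1 _ ha hta (fun z hz q hqz => hQ q (hmemQ z hz q hqz))
        (((Finset.range (ε.natDegree + 1)).image ε.coeff).filter (· ≠ 0)) (by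
          intro e he
          obtain ⟨h1, h2⟩ := Finset.mem_filter.1 he
          obtain ⟨m, -, rfl⟩ := Finset.mem_image.1 h1
          refine ⟨h2, ?_⟩
          rw [ValuationSubring.mem_comap, ← ValuationSubring.valuation_le_one_iff]
          exact (hε m).le)
    have hεA : ∀ m, ε.coeff m ∈ A1 ∧ V.valuation (j (ε.coeff m)) < 1 := by
      intro m
      refine ⟨?_, hε m⟩
      by_cases h0 : ε.coeff m = 0
      · rw [h0]
        exact zero_mem _
      · refine (hEm _ (Finset.mem_filter.2 ⟨Finset.mem_image_of_mem _ ?_, h0⟩)).mem hG.mem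
        rw [Finset.mem_range, Nat.lt_succ_iff]
        exact le_natDegree_of_ne_zero h0
    have h0 : (t - j b) / j π + ε.eval₂ j ((t - j b) / j π) = 0 := by
      have h1 : (sh b π fm).eval₂ j ((t - j b) / j π) = 0 := by
        rw [sh_eval₂, ← hta, hfm]
      rw [hsh, eval₂_mul, eval₂_C, eval₂_add, eval₂_X] at h1
      exact (mul_eq_zero.1 h1).resolve_left ((_root_.map_ne_zero _).2 hγ)
    refine ⟨g, h, fun i => j (x i), fun i => j (w i), hgV, ?_, ?_⟩
    · rw [heq]
      exact good_et j V A R1 A1 hA1V hA1loc x w hG _ ha ε hεA h0 A' hA' hden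
    · rw [heq]
      exact fun z hz => hZm z (hsZ z hz)

end Pool.Agent.Lib.TE
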