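import Pool.Agent.Lib.TE.StE
import Mathlib.FieldTheory.PrimitiveElement
import Mathlib.RingTheory.AlgebraicIndependent.Transcendental

/-!
# Module UnE: the class of uniformizable valuations is closed under dense finitely generated separable extensions
PROOF. Induction on `l`, for all `K1`.  `l = 0`: `adjoin K1 ∅ = ⊥`, `K / K1` is finite separable: a primitive element `θ` (`Field.exists_primitive_element`), `hgen`: `K = K1[θ]` (`q` with `q(θ) = z`, `d := 1`), `f := minpoly K1 θ` (separable: `f'(θ) ≠ 0`, `Polynomial.Separable.aeval_derivative_ne_zero`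
or similar).  `unif_step1` (second case).
`l + 1`: `K' := adjoin K1 {u 0}` (`↥K'` is a field, `K1 → K' → K`).  `unif_step1` for `K1 → K'`, `t := u 0` (first case; `hgen`: elements of `adjoin K1 {u 0}` are fractions: `IntermediateField.mem_adjoin_simple_iff`), `V' := V.comap (algebraMap K' K)`: `Dns` for `K1 → K'`
and `K' → K` follow from `Dns` for `K1 → K` (comparison of values in `K'` and `K`: comap lemmas).  `hV` for `K'`: `dense_val`.  Then the induction hypothesis for `K' → K` with `Fin.tail u` (algebraically independent over `K'`: `AlgebraicIndependent` and `Fin.cons`/`Option`, e.g.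
`AlgebraicIndependent.adjoin_...`, `algebraicIndependent_of_...`; `(adjoin K' (range (tail u))).restrictScalars K1 = adjoin K1 (range u)`: `IntermediateField.adjoin_adjoin_left`), `V.comap` is functorial.
-/

namespace Pool.Agent.Lib.TE

open Polynomial Pool.Agent.Lib.MP_3029eb_ag Pool.Agent.Lib.MP_3029eb_ag.Abh IsLocalRing

private lemma une_comap_lt {F L : Type} [Field F] [Field L] (W : ValuationSubring L) (φ : F →+* L)
    (a b : F) : (W.comap φ).valuation a < (W.comap φ).valuation b ↔
      W.valuation (φ a) < W.valuation (φ b) := by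
  rw [← not_le, ← not_le, TC.I3_comap_le]

private lemma une_base {Rb K1 K : Type} [CommRing Rb] [IsNoetherianRing Rb] [Field K1] [Field K]
    [Algebra K1 K] (φ1 : Rb →+* K1) (V : ValuationSubring K)
    (hV : ∃ z : K, z ≠ 0 ∧ V.valuation z < 1) (hd : Dns (algebraMap K1 K) V)
    (hsep : Algebra.IsSeparable K1 K) (hfin : FiniteDimensional K1 K) {r : ℕ}
    (H : TC.Unif φ1 (V.comap (algebraMap K1 K)) r) :
    TC.Unif ((algebraMap K1 K).comp φ1) V r := by
  let pb : PowerBasis K1 K := Field.powerBasisOfFiniteOfSeparable K1 K
  refine unif_step1 φ1 (algebraMap K1 K) V hV hd pb.gen ?_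
    (Or.inr ⟨minpoly K1 pb.gen, minpoly.aeval _ _, ?_⟩) H
  · intro z
    obtain ⟨q, hq⟩ := pb.exists_eq_aeval' z
    refine ⟨q, 1, ?_, ?_⟩
    · rw [eval₂_one]
      exact one_ne_zero
    · rw [eval₂_one, mul_one, hq]
      rfl
  · exact (Algebra.IsSeparable.isSeparable K1 pb.gen).aeval_derivative_ne_zero (minpoly.aeval _ _)

private lemma une_bot_sep {F E : Type} [Field F] [Field E] [Algebra F E] :
    Algebra.IsSeparable F (⊥ : IntermediateField F E) := by
  refine ⟨fun x => ?_⟩
  obtain ⟨y, hy⟩ := IntermediateField.mem_bot.1 x.2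
  have h1 : x = algebraMap F _ y := Subtype.ext hy.symm
  rw [h1]
  exact isSeparable_algebraMap y

open scoped IntermediateField.algebraAdjoinAdjoin in
private lemma une_indep {K1 K : Type} [Field K1] [Field K] [Algebra K1 K] {l : ℕ}
    (u : Fin (l + 1) → K) (hu : AlgebraicIndependent K1 u) :
    AlgebraicIndependent (IntermediateField.adjoin K1 {u 0}) (fun i : Fin l => u i.succ) := by
  have h1 : AlgebraicIndependent (Algebra.adjoin K1 (u '' {0}))
      (fun i : ({i | i ≠ 0} : Set (Fin (l + 1))) => u i) :=
    hu.adjoin_of_disjoint (Set.disjoint_left.2 fun i hi hi' => hi' hi)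
  rw [Set.image_singleton] at h1
  have h2 := h1.comp (fun i : Fin l => (⟨i.succ, Fin.succ_ne_zero i⟩ :
    ({i | i ≠ 0} : Set (Fin (l + 1))))) (fun i i' h => Fin.succ_injective _ (congrArg Subtype.val h))
  have h3 : AlgebraicIndependent (Algebra.adjoin K1 {u 0}) (fun i : Fin l => u i.succ) := h2
  have h4 : Algebra.IsAlgebraic (Algebra.adjoin K1 {u 0}) (IntermediateField.adjoin K1 {u 0}) :=
    inferInstance
  exact AlgebraicIndependent.extendScalars (R := Algebra.adjoin K1 {u 0})
    (IntermediateField.adjoin K1 {u 0}) h3

private lemma une_le {K1 K : Type} [Field K1] [Field K] [Algebra K1 K] {l : ℕ}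
    (u : Fin (l + 1) → K) : ∀ x : K, x ∈ IntermediateField.adjoin K1 (Set.range u) →
      x ∈ IntermediateField.adjoin (IntermediateField.adjoin K1 {u 0})
        (Set.range fun i : Fin l => u i.succ) := by
  intro x hx
  have h0 : ∀ y : K, y ∈ (IntermediateField.adjoin (IntermediateField.adjoin K1 {u 0})
      (Set.range fun i : Fin l => u i.succ)).restrictScalars K1 ↔
      y ∈ IntermediateField.adjoin (IntermediateField.adjoin K1 {u 0})
      (Set.range fun i : Fin l => u i.succ) := fun y => IntermediateField.mem_restrictScalars K1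
  have h1 : IntermediateField.adjoin K1 (Set.range u) ≤
      (IntermediateField.adjoin (IntermediateField.adjoin K1 {u 0})
      (Set.range fun i : Fin l => u i.succ)).restrictScalars K1 := by
    rw [IntermediateField.adjoin_le_iff]
    rintro _ ⟨i, rfl⟩
    refine (h0 _).2 ?_
    refine Fin.cases ?_ (fun i => ?_) i
    · have h2 := (IntermediateField.adjoin (IntermediateField.adjoin K1 {u 0})
        (Set.range fun i : Fin l => u i.succ)).algebraMap_mem
          ⟨u 0, IntermediateField.mem_adjoin_simple_self K1 (u 0)⟩
      exact h2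
    · exact IntermediateField.subset_adjoin _ _ ⟨i, rfl⟩
  exact (h0 x).1 (h1 hx)

theorem unif_dense {Rb K1 K : Type} [CommRing Rb] [IsNoetherianRing Rb] [Field K1] [Field K]
    [Algebra K1 K] (φ1 : Rb →+* K1) (V : ValuationSubring K)
    (hV : ∃ z : K, z ≠ 0 ∧ V.valuation z < 1) (hd : Dns (algebraMap K1 K) V) {l : ℕ}
    (u : Fin l → K) (hu : AlgebraicIndependent K1 u)
    (hsep : Algebra.IsSeparable (IntermediateField.adjoin K1 (Set.range u)) K)
    (hfin : FiniteDimensional (IntermediateField.adjoin K1 (Set.range u)) K) {r : ℕ}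
    (H : TC.Unif φ1 (V.comap (algebraMap K1 K)) r) :
    TC.Unif ((algebraMap K1 K).comp φ1) V r := by
  induction l generalizing K1 with
  | zero =>
    have hbot : IntermediateField.adjoin K1 (Set.range u) = ⊥ := by
      rw [Set.range_eq_empty, IntermediateField.adjoin_empty]
    rw [hbot] at hsep hfin
    have h1 : Algebra.IsSeparable K1 (⊥ : IntermediateField K1 K) := une_bot_sep
    exact une_base φ1 V hV hd (Algebra.IsSeparable.trans K1 (⊥ : IntermediateField K1 K) K)
      (Module.Finite.trans (⊥ : IntermediateField K1 K) K) H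
  | succ l ih =>
    let K' : IntermediateField K1 K := IntermediateField.adjoin K1 {u 0}
    have ht : u 0 ∈ K' := IntermediateField.mem_adjoin_simple_self K1 (u 0)
    let t : K' := ⟨u 0, ht⟩
    let V' : ValuationSubring K' := V.comap (algebraMap K' K)
    have hV'c : V'.comap (algebraMap K1 K') = V.comap (algebraMap K1 K) := rfl
    have hd1 : Dns (algebraMap K1 K') V' := by
      intro z a ha
      have ha' : algebraMap K' K a ≠ 0 := (_root_.map_ne_zero _).2 ha
      obtain ⟨z1, hz1⟩ := hd (algebraMap K' K z) (algebraMap K' K a) ha'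
      refine ⟨z1, ?_⟩
      rw [une_comap_lt, map_sub]
      exact hz1
    have hd2 : Dns (algebraMap K' K) V := by
      intro z a ha
      obtain ⟨z1, hz1⟩ := hd z a ha
      exact ⟨algebraMap K1 K' z1, hz1⟩
    have hV' : ∃ z : K', z ≠ 0 ∧ V'.valuation z < 1 := by
      obtain ⟨z, hz, hz1⟩ := hV
      obtain ⟨z1, h1, h2⟩ := dense_val hd hz
      refine ⟨algebraMap K1 K' z1, (_root_.map_ne_zero _).2 h1, ?_⟩
      rw [TC.I3_comap_lt_one]
      change V.valuation (algebraMap K1 K z1) < 1
      rw [h2]
      exact hz1
    have hev : ∀ q : K1[X], algebraMap K' K (q.eval₂ (algebraMap K1 K') t) = aeval (u 0) q := by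
      intro q
      rw [hom_eval₂]
      rfl
    have H' : TC.Unif ((algebraMap K1 K').comp φ1) V' r := by
      refine unif_step1 φ1 (algebraMap K1 K') V' hV' hd1 t ?_ (Or.inl ?_) H
      · rintro ⟨z, hz⟩
        obtain ⟨q, d, hqd⟩ := (IntermediateField.mem_adjoin_simple_iff K1 z).1 hz
        by_cases h0 : aeval (u 0) d = 0
        · refine ⟨0, 1, ?_, ?_⟩
          · rw [eval₂_one]
            exact one_ne_zero
          · rw [h0, div_zero] at hqd
            subst hqd
            rw [eval₂_one, eval₂_zero, mul_one]
            rfl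
        · refine ⟨q, d, ?_, ?_⟩
          · intro h1
            apply h0
            rw [← hev, h1, map_zero]
          · apply (algebraMap K' K).injective
            rw [map_mul, hev, hev]
            change z * _ = _
            rw [hqd, div_mul_cancel₀ _ h0]
      · intro P hP
        have h1 : aeval (u 0) P = 0 := by
          rw [← hev, hP, map_zero]
        exact (transcendental_iff.1 (hu.transcendental 0)) P h1
    -- the induction hypothesis
    have hu' : AlgebraicIndependent K' (fun i : Fin l => u i.succ) := une_indep u hu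
    have hle := une_le (K1 := K1) u
    let ι : IntermediateField.adjoin K1 (Set.range u) →+*
        IntermediateField.adjoin K' (Set.range fun i : Fin l => u i.succ) :=
      { toFun := fun x => ⟨x.1, hle x.1 x.2⟩
        map_one' := rfl
        map_mul' := fun _ _ => rfl
        map_zero' := rfl
        map_add' := fun _ _ => rfl }
    let _ : Algebra (IntermediateField.adjoin K1 (Set.range u))
      (IntermediateField.adjoin K' (Set.range fun i : Fin l => u i.succ)) := ι.toAlgebra
    have htow : IsScalarTower (IntermediateField.adjoin K1 (Set.range u))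
      (IntermediateField.adjoin K' (Set.range fun i : Fin l => u i.succ)) K :=
      IsScalarTower.of_algebraMap_eq fun x => rfl
    have hsep' : Algebra.IsSeparable
        (IntermediateField.adjoin K' (Set.range fun i : Fin l => u i.succ)) K :=
      Algebra.isSeparable_tower_top_of_isSeparable (IntermediateField.adjoin K1 (Set.range u)) _ _
    have hfin' : FiniteDimensional
        (IntermediateField.adjoin K' (Set.range fun i : Fin l => u i.succ)) K :=
      Module.Finite.right (IntermediateField.adjoin K1 (Set.range u)) _ _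
    have hfinal := ih ((algebraMap K1 K').comp φ1) hd2 (fun i : Fin l => u i.succ) hu' hsep' hfin' H'
    have hcomp : (algebraMap K' K).comp ((algebraMap K1 K').comp φ1) =
        (algebraMap K1 K).comp φ1 := RingHom.ext fun _ => rfl
    rw [hcomp] at hfinal
    exact hfinal

end Pool.Agent.Lib.TE
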